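import Pool.Agent.W89.VP.Defs

/-! # The exceptional tuples -/

set_option autoImplicit false

namespace Pool.Agent.W320.PV_EXC

open Finset Pool.Agent.W89.VP

lemma Vd_pos {n N : ℕ} {y : Fin n → ℕ} (hy : Good n N y) : 1 ≤ Vd y := by
  unfold Vd
  apply Nat.one_le_iff_ne_zero.2
  rw [Finset.prod_ne_zero_iff]
  intro i _
  rw [Finset.prod_ne_zero_iff]
  intro j hj
  have hij := (Finset.mem_filter.1 hj).2
  unfold ds
  have h1 : y i ≠ y j := fun h => (ne_of_lt hij) (hy.1 h)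
  omega

lemma Vd_le {n N : ℕ} (hN : 1 ≤ N) {y : Fin n → ℕ} (hy : Good n N y) : Vd y ≤ N ^ (n * n) := by
  unfold Vd
  have h1 : ∀ i : Fin n, ∏ j ∈ Finset.univ.filter (fun j : Fin n => i < j), ds (y i) (y j) ≤
      N ^ n := by
    intro i
    have h2 : ∏ j ∈ Finset.univ.filter (fun j : Fin n => i < j), ds (y i) (y j) ≤
        N ^ (Finset.univ.filter (fun j : Fin n => i < j)).card := by
      apply Finset.prod_le_pow_card
      intro j _
      unfold ds
      have h3 := hy.2 i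
      have h4 := hy.2 j
      omega
    refine h2.trans (Nat.pow_le_pow_right hN ?_)
    refine (Finset.card_le_univ _).trans ?_
    simp
  have h5 : ∏ i : Fin n, ∏ j ∈ Finset.univ.filter (fun j : Fin n => i < j), ds (y i) (y j) ≤
      (N ^ n) ^ (Finset.univ : Finset (Fin n)).card :=
    Finset.prod_le_pow_card _ _ _ (fun i _ => h1 i)
  rw [Finset.card_univ, Fintype.card_fin, ← pow_mul] at h5
  exact h5

/-- both sides of `y` -/
lemma two_sides (N y : ℕ) (hy : y ≤ N) (f : ℕ → ℝ) (hf : ∀ m, 0 ≤ f m) :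
    ∑ x ∈ (Finset.Icc 1 N).filter (fun x => x ≠ y), f (ds y x) ≤
      2 * ∑ m ∈ Finset.Icc 1 N, f m := by
  have h1 : ∑ x ∈ (Finset.Icc 1 N).filter (fun x => x < y), f (ds y x) ≤
      ∑ m ∈ Finset.Icc 1 N, f m := by
    rw [← Finset.sum_image (s := (Finset.Icc 1 N).filter (fun x => x < y)) (g := fun x => ds y x)
      (f := f)]
    · apply Finset.sum_le_sum_of_subset_of_nonneg
      · intro m hm
        obtain ⟨x, hx, rfl⟩ := Finset.mem_image.1 hm
        have hx := Finset.mem_filter.1 hx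
        have h2 := Finset.mem_Icc.1 hx.1
        rw [Finset.mem_Icc]
        unfold ds
        omega
      · intro m _ _
        exact hf m
    · intro a ha b hb hab
      have ha := (Finset.mem_filter.1 ha).2
      have hb := (Finset.mem_filter.1 hb).2
      simp only [ds] at hab
      omega
  have h2 : ∑ x ∈ (Finset.Icc 1 N).filter (fun x => y < x), f (ds y x) ≤
      ∑ m ∈ Finset.Icc 1 N, f m := by
    rw [← Finset.sum_image (s := (Finset.Icc 1 N).filter (fun x => y < x)) (g := fun x => ds y x)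
      (f := f)]
    · apply Finset.sum_le_sum_of_subset_of_nonneg
      · intro m hm
        obtain ⟨x, hx, rfl⟩ := Finset.mem_image.1 hm
        have hx := Finset.mem_filter.1 hx
        have h2 := Finset.mem_Icc.1 hx.1
        rw [Finset.mem_Icc]
        unfold ds
        omega
      · intro m _ _
        exact hf m
    · intro a ha b hb hab
      have ha := (Finset.mem_filter.1 ha).2
      have hb := (Finset.mem_filter.1 hb).2
      simp only [ds] at hab
      omega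
  have h3 : (Finset.Icc 1 N).filter (fun x => x ≠ y) =
      (Finset.Icc 1 N).filter (fun x => x < y) ∪ (Finset.Icc 1 N).filter (fun x => y < x) := by
    ext x
    simp only [Finset.mem_filter, Finset.mem_union]
    constructor
    · rintro ⟨h4, h5⟩
      rcases lt_or_gt_of_ne h5 with h6 | h6
      · exact Or.inl ⟨h4, h6⟩
      · exact Or.inr ⟨h4, h6⟩
    · rintro (⟨h4, h5⟩ | ⟨h4, h5⟩)
      · exact ⟨h4, by omega⟩
      · exact ⟨h4, by omega⟩
  rw [h3, Finset.sum_union]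
  · linarith
  · rw [Finset.disjoint_left]
    intro x hx hx'
    have := (Finset.mem_filter.1 hx).2
    have := (Finset.mem_filter.1 hx').2
    omega

/-- the sum over the parts coprime to `V` -/
lemma sum_vf (hVF : VFStm) (N V : ℕ) :
    ∑ m ∈ Finset.Icc 1 N, (1 / (vf V m : ℝ)) ≤
      (((Finset.Icc 1 N).filter (fun u => ∀ p ∈ u.primeFactors, p ∣ V)).card : ℝ) *
        ∑ b ∈ Finset.Icc 1 N, (1 / (b : ℝ)) := by
  obtain ⟨v1, v2, -, -, v5, -⟩ := hVF
  set T := (Finset.Icc 1 N).filter (fun u => ∀ p ∈ u.primeFactors, p ∣ V) with hT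
  have h1 : (T.card : ℝ) * ∑ b ∈ Finset.Icc 1 N, (1 / (b : ℝ)) =
      ∑ q ∈ T ×ˢ Finset.Icc 1 N, (1 / (q.2 : ℝ)) := by
    rw [Finset.sum_product]
    simp only [Finset.sum_const, nsmul_eq_mul]
  rw [h1, ← Finset.sum_image (s := Finset.Icc 1 N) (g := fun m => (m / vf V m, vf V m))
    (f := fun q : ℕ × ℕ => (1 / (q.2 : ℝ)))]
  · apply Finset.sum_le_sum_of_subset_of_nonneg
    · intro q hq
      obtain ⟨m, hm, rfl⟩ := Finset.mem_image.1 hq
      have hm := Finset.mem_Icc.1 hm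
      have d1 := v1 V m hm.1
      have d2 := v2 V m hm.1
      have d3 : vf V m ≤ m := Nat.le_of_dvd hm.1 d1
      have d4 : m / vf V m ≤ m := Nat.div_le_self _ _
      have d5 : 1 ≤ m / vf V m := Nat.div_pos d3 d2
      rw [Finset.mem_product, hT, Finset.mem_filter, Finset.mem_Icc, Finset.mem_Icc]
      refine ⟨⟨⟨d5, d4.trans hm.2⟩, ?_⟩, d2, d3.trans hm.2⟩
      intro p hp
      exact v5 V m p hm.1 (Nat.prime_of_mem_primeFactors hp) (Nat.dvd_of_mem_primeFactors hp)
    · intro q _ _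
      positivity
  · intro a ha b hb hab
    have ha := Finset.mem_Icc.1 (Finset.mem_coe.1 ha)
    have hb := Finset.mem_Icc.1 (Finset.mem_coe.1 hb)
    simp only [Prod.mk.injEq] at hab
    rw [← Nat.div_mul_cancel (v1 V a ha.1), ← Nat.div_mul_cancel (v1 V b hb.1), hab.1, hab.2]

lemma harm {N : ℕ} (hN : 1 ≤ N) {e : ℝ} (he : 0 < e) :
    ∑ b ∈ Finset.Icc 1 N, (1 / (b : ℝ)) ≤ (1 + 1 / e) * (N : ℝ) ^ e := by
  have h1 := harmonic_le_one_add_log N
  have h2 : ((harmonic N : ℚ) : ℝ) = ∑ b ∈ Finset.Icc 1 N, (1 / (b : ℝ)) := by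
    rw [harmonic_eq_sum_Icc]
    push_cast
    apply Finset.sum_congr rfl
    intro b _
    rw [one_div]
  rw [h2] at h1
  have hN1 : (1 : ℝ) ≤ N := by exact_mod_cast hN
  have h3 : Real.log N ≤ (N : ℝ) ^ e / e := Real.log_le_rpow_div (by linarith) he
  have h4 : 1 ≤ (N : ℝ) ^ e := Real.one_le_rpow hN1 he.le
  have h5 : (1 + 1 / e) * (N : ℝ) ^ e = (N : ℝ) ^ e + (N : ℝ) ^ e / e := by ring
  rw [h5]
  linarith

theorem main (hVF : VFStm) (hV : VINFStm) : EXCStm := by
  classical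
  intro s n
  obtain ⟨e, he⟩ : ∃ e : ℝ, e = 1 / (2 * ((s : ℝ) + 1)) := ⟨_, rfl⟩
  have he0 : 0 < e := by rw [he]; positivity
  obtain ⟨C1, hC1, hV⟩ := hV (n * n) e he0
  set C2 : ℝ := 2 * C1 * (1 + 1 / e) with hC2
  have hC2p : 0 < C2 := by positivity
  refine ⟨n * C2 ^ s + 1, by positivity, ?_⟩
  intro N hN y hy
  have hN1 : (1 : ℝ) ≤ N := by exact_mod_cast hN
  have hN0 : (0 : ℝ) < N := by linarith
  set V := Vd y with hVd
  have hV1 := Vd_pos hy
  have hV2 := Vd_le hN hy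
  have hT := hV N V hN hV1 hV2
  set Z : ℝ := (N : ℝ) ^ ((7 / 8 : ℝ) * s) with hZ
  have hZ0 : 0 < Z := by positivity
  -- one dimensional sum
  have hW : ∀ j : Fin n, ∑ x ∈ (Finset.Icc 1 N).filter (fun x => x ≠ y j),
      (1 / (vf V (ds (y j) x) : ℝ)) ≤ C2 * (N : ℝ) ^ (2 * e) := by
    intro j
    have h1 := two_sides N (y j) (hy.2 j).2 (fun m => 1 / (vf V m : ℝ)) (fun m => by positivity)
    have h2 := sum_vf hVF N V
    have h3 := harm hN he0
    have h4 : ∑ m ∈ Finset.Icc 1 N, (1 / (vf V m : ℝ)) ≤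
        (C1 * (N : ℝ) ^ e) * ((1 + 1 / e) * (N : ℝ) ^ e) := by
      refine h2.trans (mul_le_mul hT h3 ?_ (by positivity))
      exact Finset.sum_nonneg fun b _ => by positivity
    have h5 : C2 * (N : ℝ) ^ (2 * e) =
        2 * ((C1 * (N : ℝ) ^ e) * ((1 + 1 / e) * (N : ℝ) ^ e)) := by
      rw [two_mul e, Real.rpow_add hN0, hC2]
      ring
    rw [h5]
    linarith
  -- the tuples for one `j`
  have hj : ∀ j : Fin n, (((Fintype.piFinset fun _ : Fin s => Finset.Icc 1 N).filter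
      (fun x : Fin s → ℕ => (∀ i, x i ≠ y j) ∧
        ((vf V (∏ i, ds (y j) (x i)) : ℕ) : ℝ) < Z)).card : ℝ) ≤
      C2 ^ s * (N : ℝ) ^ ((7 / 8 : ℝ) * s + 1) := by
    intro j
    set G := (Fintype.piFinset fun _ : Fin s => Finset.Icc 1 N).filter
      (fun x : Fin s → ℕ => (∀ i, x i ≠ y j) ∧
        ((vf V (∏ i, ds (y j) (x i)) : ℕ) : ℝ) < Z) with hG
    have hds : ∀ x, x ≠ y j → 1 ≤ ds (y j) x := by
      intro x hx
      unfold ds
      omega
    have h1 : (G.card : ℝ) ≤ ∑ x ∈ G, Z * ∏ i, (1 / (vf V (ds (y j) (x i)) : ℝ)) := by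
      rw [Finset.card_eq_sum_ones]
      push_cast
      apply Finset.sum_le_sum
      intro x hx
      obtain ⟨-, hx1, hx2⟩ := Finset.mem_filter.1 hx
      have h2 : vf V (∏ i, ds (y j) (x i)) = ∏ i, vf V (ds (y j) (x i)) :=
        hVF.2.2.2.2.2 V (Fin s) (fun i => ds (y j) (x i)) (fun i => hds _ (hx1 i))
      rw [h2] at hx2
      push_cast at hx2
      have h3 : 0 < ∏ i, (vf V (ds (y j) (x i)) : ℝ) := by
        apply Finset.prod_pos
        intro i _
        have := hVF.2.1 V (ds (y j) (x i)) (hds _ (hx1 i))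
        exact_mod_cast this
      have h4 : ∏ i, (1 / (vf V (ds (y j) (x i)) : ℝ)) = 1 / ∏ i, (vf V (ds (y j) (x i)) : ℝ) := by
        rw [Finset.prod_div_distrib]
        simp
      rw [h4, mul_one_div, le_div_iff₀ h3, one_mul]
      exact hx2.le
    have h5 : ∑ x ∈ G, Z * ∏ i, (1 / (vf V (ds (y j) (x i)) : ℝ)) ≤
        ∑ x ∈ Fintype.piFinset (fun _ : Fin s => (Finset.Icc 1 N).filter (fun x => x ≠ y j)),
          Z * ∏ i, (1 / (vf V (ds (y j) (x i)) : ℝ)) := by
      apply Finset.sum_le_sum_of_subset_of_nonneg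
      · intro x hx
        obtain ⟨hx0, hx1, -⟩ := Finset.mem_filter.1 hx
        rw [Fintype.mem_piFinset] at hx0 ⊢
        intro i
        exact Finset.mem_filter.2 ⟨hx0 i, hx1 i⟩
      · intro x _ _
        positivity
    have h6 : ∑ x ∈ Fintype.piFinset (fun _ : Fin s => (Finset.Icc 1 N).filter (fun x => x ≠ y j)),
          Z * ∏ i, (1 / (vf V (ds (y j) (x i)) : ℝ)) =
        Z * (∑ x ∈ (Finset.Icc 1 N).filter (fun x => x ≠ y j),
          (1 / (vf V (ds (y j) x) : ℝ))) ^ s := by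
      rw [← Finset.mul_sum]
      congr 1
      have := Finset.prod_univ_sum (fun _ : Fin s => (Finset.Icc 1 N).filter (fun x => x ≠ y j))
        (fun _ x => (1 / (vf V (ds (y j) x) : ℝ)))
      rw [← this, Finset.prod_const, Finset.card_univ, Fintype.card_fin]
    have h7 : (∑ x ∈ (Finset.Icc 1 N).filter (fun x => x ≠ y j),
          (1 / (vf V (ds (y j) x) : ℝ))) ^ s ≤ (C2 * (N : ℝ) ^ (2 * e)) ^ s :=
      pow_le_pow_left₀ (Finset.sum_nonneg fun x _ => by positivity) (hW j) s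
    have h8 : (C2 * (N : ℝ) ^ (2 * e)) ^ s ≤ C2 ^ s * N := by
      rw [mul_pow]
      apply mul_le_mul_of_nonneg_left _ (by positivity)
      rw [← Real.rpow_natCast ((N : ℝ) ^ (2 * e)) s, ← Real.rpow_mul hN0.le]
      have h9 : 2 * e * s ≤ 1 := by
        rw [he]
        rw [show 2 * (1 / (2 * ((s : ℝ) + 1))) * s = s / (s + 1) by field_simp]
        rw [div_le_one (by positivity)]
        linarith
      calc (N : ℝ) ^ (2 * e * s) ≤ (N : ℝ) ^ (1 : ℝ) := Real.rpow_le_rpow_of_exponent_le hN1 h9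
        _ = N := Real.rpow_one _
    calc (G.card : ℝ) ≤ Z * (∑ x ∈ (Finset.Icc 1 N).filter (fun x => x ≠ y j),
          (1 / (vf V (ds (y j) x) : ℝ))) ^ s := by rw [← h6]; exact h1.trans h5
      _ ≤ Z * (C2 ^ s * N) := mul_le_mul_of_nonneg_left (h7.trans h8) hZ0.le
      _ = C2 ^ s * (N : ℝ) ^ ((7 / 8 : ℝ) * s + 1) := by
          rw [Real.rpow_add hN0, Real.rpow_one, hZ]
          ring
  -- union over `j`
  have hsub : (Fintype.piFinset fun _ : Fin s => Finset.Icc 1 N).filter (fun x : Fin s → ℕ =>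
      (∀ i j, x i ≠ y j) ∧ ∃ j, ((vf V (∏ i, ds (y j) (x i)) : ℕ) : ℝ) < Z) ⊆
      (Finset.univ : Finset (Fin n)).biUnion (fun j =>
        (Fintype.piFinset fun _ : Fin s => Finset.Icc 1 N).filter
      (fun x : Fin s → ℕ => (∀ i, x i ≠ y j) ∧
        ((vf V (∏ i, ds (y j) (x i)) : ℕ) : ℝ) < Z)) := by
    intro x hx
    obtain ⟨hx0, hx1, j, hx2⟩ := Finset.mem_filter.1 hx
    rw [Finset.mem_biUnion]
    exact ⟨j, Finset.mem_univ _, Finset.mem_filter.2 ⟨hx0, fun i => hx1 i j, hx2⟩⟩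
  have hcard := (Finset.card_le_card hsub).trans Finset.card_biUnion_le
  have hcard' : (((Fintype.piFinset fun _ : Fin s => Finset.Icc 1 N).filter (fun x : Fin s → ℕ =>
      (∀ i j, x i ≠ y j) ∧ ∃ j, ((vf V (∏ i, ds (y j) (x i)) : ℕ) : ℝ) < Z)).card : ℝ) ≤
      ∑ j : Fin n, (((Fintype.piFinset fun _ : Fin s => Finset.Icc 1 N).filter
      (fun x : Fin s → ℕ => (∀ i, x i ≠ y j) ∧
        ((vf V (∏ i, ds (y j) (x i)) : ℕ) : ℝ) < Z)).card : ℝ) := by
    exact_mod_cast hcard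
  have hfin : ∑ j : Fin n, (((Fintype.piFinset fun _ : Fin s => Finset.Icc 1 N).filter
      (fun x : Fin s → ℕ => (∀ i, x i ≠ y j) ∧
        ((vf V (∏ i, ds (y j) (x i)) : ℕ) : ℝ) < Z)).card : ℝ) ≤
      ∑ _j : Fin n, C2 ^ s * (N : ℝ) ^ ((7 / 8 : ℝ) * s + 1) :=
    Finset.sum_le_sum fun j _ => hj j
  rw [Finset.sum_const, Finset.card_univ, Fintype.card_fin, nsmul_eq_mul] at hfin
  refine (hcard'.trans hfin).trans ?_
  have : 0 ≤ (N : ℝ) ^ ((7 / 8 : ℝ) * s + 1) := by positivity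
  rw [add_mul, mul_assoc]
  linarith

end Pool.Agent.W320.PV_EXC
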