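import Pool.Agent.W320.CQ_T2

/-! Project CQ: extraction of the pure terms of the next order. -/

set_option autoImplicit false

open Metric Set Filter Topology Asymptotics

namespace W320.CQH

open Pool.Agent.W722.Cq

/-- general homogeneous real polynomial of degree `n` -/
noncomputable def Hg (n : ℕ) (c : ℕ → ℂ) (x : ℂ) : ℝ :=
  (∑ a ∈ Finset.range (n + 1), c a * mo a (n - a) x).re

lemma Hg_smul (n : ℕ) (c : ℕ → ℂ) (s : ℝ) (x : ℂ) :
    Hg n c ((s : ℂ) * x) = s ^ n * Hg n c x := by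
  unfold Hg
  rw [← Complex.re_ofReal_mul, Finset.mul_sum]
  congr 1
  refine Finset.sum_congr rfl fun a ha => ?_
  rw [Finset.mem_range] at ha
  rw [mo_smul, show a + (n - a) = n by omega]
  ring

/-- coefficients of the integrated polynomial -/
noncomputable def ic (n : ℕ) (A B : ℕ → ℂ) (a : ℕ) : ℂ :=
  ((n : ℂ) + 1)⁻¹ * ((if a = 0 then 0 else (A (a - 1) - Complex.I * B (a - 1)) / 2) +
    (if a ≤ n then (A a + Complex.I * B a) / 2 else 0))

lemma Hg_ic (n : ℕ) (A B : ℕ → ℂ) (x : ℂ) :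
    ((n : ℝ) + 1) * Hg (n + 1) (ic n A B) x = x.re * Hg n A x + x.im * Hg n B x := by
  have hn : (n : ℂ) + 1 ≠ 0 := by exact_mod_cast Nat.succ_ne_zero n
  have h1 : (((n : ℝ) + 1 : ℝ) : ℂ) * (∑ a ∈ Finset.range (n + 1 + 1),
      ic n A B a * mo a (n + 1 - a) x) =
      ∑ a ∈ Finset.range (n + 1), ((x.re : ℂ) * A a + (x.im : ℂ) * B a) * mo a (n - a) x := by
    have e1 : ∀ a, (((n : ℝ) + 1 : ℝ) : ℂ) * (ic n A B a * mo a (n + 1 - a) x) =
        (if a = 0 then 0 else (A (a - 1) - Complex.I * B (a - 1)) / 2) * mo a (n + 1 - a) x +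
        (if a ≤ n then (A a + Complex.I * B a) / 2 else 0) * mo a (n + 1 - a) x := by
      intro a
      unfold ic
      push_cast
      field_simp
    rw [Finset.mul_sum, Finset.sum_congr rfl fun a _ => e1 a, Finset.sum_add_distrib]
    have e2 : ∑ a ∈ Finset.range (n + 1 + 1),
        (if a = 0 then 0 else (A (a - 1) - Complex.I * B (a - 1)) / 2) * mo a (n + 1 - a) x =
        ∑ a ∈ Finset.range (n + 1), (A a - Complex.I * B a) / 2 * mo (a + 1) (n - a) x := by
      rw [Finset.sum_range_succ']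
      simp
    have e3 : ∑ a ∈ Finset.range (n + 1 + 1),
        (if a ≤ n then (A a + Complex.I * B a) / 2 else 0) * mo a (n + 1 - a) x =
        ∑ a ∈ Finset.range (n + 1), (A a + Complex.I * B a) / 2 * mo a (n + 1 - a) x := by
      rw [Finset.sum_range_succ, if_neg (by omega), zero_mul, add_zero]
      refine Finset.sum_congr rfl fun a ha => ?_
      rw [Finset.mem_range] at ha
      rw [if_pos (by omega)]
    rw [e2, e3, ← Finset.sum_add_distrib]
    refine Finset.sum_congr rfl fun a ha => ?_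
    rw [Finset.mem_range] at ha
    have e4 : mo (a + 1) (n - a) x = x * mo a (n - a) x := by unfold mo; ring
    have e5 : mo a (n + 1 - a) x = starRingEnd ℂ x * mo a (n - a) x := by
      unfold mo; rw [show n + 1 - a = (n - a) + 1 by omega]; ring
    rw [e4, e5, Complex.re_eq_add_conj, Complex.im_eq_sub_conj]
    have hI : Complex.I ≠ 0 := Complex.I_ne_zero
    field_simp
    have hI2 : Complex.I ^ 2 = -1 := Complex.I_sq
    linear_combination (- B a * (x - starRingEnd ℂ x) * mo a (n - a) x) * hI2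
  have h2 := congrArg Complex.re h1
  rw [Complex.re_ofReal_mul] at h2
  unfold Hg
  rw [h2, ← Complex.re_ofReal_mul, ← Complex.re_ofReal_mul, ← Complex.add_re, Finset.mul_sum,
    Finset.mul_sum, ← Finset.sum_add_distrib]
  congr 1
  refine Finset.sum_congr rfl fun a _ => ?_
  ring

/-- mean value inequality on `[0, 1]` -/
lemma mvi01 {f f' : ℝ → ℝ} {K : ℝ}
    (hf : ∀ t, 0 ≤ t → t ≤ 1 → HasDerivAt f (f' t) t)
    (hb : ∀ t, 0 ≤ t → t ≤ 1 → |f' t| ≤ K) : |f 1 - f 0| ≤ K := by
  have := Convex.norm_image_sub_le_of_norm_hasDerivWithin_le (f := f) (f' := f') (C := K)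
    (s := Set.Icc 0 1) (x := 0) (y := 1) (fun x hx => (hf x hx.1 hx.2).hasDerivWithinAt)
    (fun x hx => hb x hx.1 hx.2) (convex_Icc _ _) ⟨le_rfl, zero_le_one⟩ ⟨zero_le_one, le_rfl⟩
  simpa using this

/-- a smooth function of order `n` has a homogeneous part of degree `n` -/
lemma hom_part (hD : S_DER) (n : ℕ) : ∀ f : ℂ → ℝ, ContDiff ℝ ((⊤ : ℕ∞) : WithTop ℕ∞) f →
    f =O[𝓝 (0 : ℂ)] (fun x => ‖x‖ ^ n) →
    ∃ C : ℕ → ℂ, (fun x => f x - Hg n C x) =O[𝓝 (0 : ℂ)] (fun x => ‖x‖ ^ (n + 1)) := by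
  induction n with
  | zero =>
    intro f hf _
    refine ⟨fun _ => (f 0 : ℂ), ?_⟩
    have hd : DifferentiableAt ℝ f 0 := hf.differentiable (by norm_num) 0
    have h1 := hd.isBigO_sub
    refine (IsBigO.congr_left h1 fun x => ?_).trans ?_
    · simp [Hg, mo]
    · simp only [sub_zero, zero_add, pow_one]
      exact (isBigO_refl _ _).norm_right
  | succ n ih =>
    intro f hf hO
    have h0 : f 0 = 0 := by
      obtain ⟨K, hK⟩ := hO.bound
      have := hK.self_of_nhds
      simpa using this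
    have hd : ∀ y, DifferentiableAt ℝ f y := hf.differentiable (by norm_num)
    have hdf := ((hD f hf).1 n hO).2
    have hv : ∀ v : ℂ, (fun x => fderiv ℝ f x v) =O[𝓝 (0 : ℂ)] (fun x => ‖x‖ ^ n) := by
      intro v
      refine IsBigO.trans (IsBigO.of_bound ‖v‖ (Eventually.of_forall fun x => ?_)) hdf
      rw [mul_comm]
      exact (fderiv ℝ f x).le_opNorm v
    have hvs : ∀ v : ℂ, ContDiff ℝ ((⊤ : ℕ∞) : WithTop ℕ∞) (fun x => fderiv ℝ f x v) := by
      intro v
      have : ContDiff ℝ ((⊤ : ℕ∞) : WithTop ℕ∞) (fderiv ℝ f) := hf.fderiv_right (by simp)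
      exact this.clm_apply contDiff_const
    obtain ⟨A, hA⟩ := ih _ (hvs 1) (hv 1)
    obtain ⟨B, hB⟩ := ih _ (hvs Complex.I) (hv Complex.I)
    obtain ⟨K1, hK1⟩ := hA.bound
    obtain ⟨K2, hK2⟩ := hB.bound
    obtain ⟨δ, hδ, hball⟩ := Metric.eventually_nhds_iff_ball.1 (hK1.and hK2)
    refine ⟨ic n A B, IsBigO.of_bound (|K1| + |K2|) ?_⟩
    filter_upwards [ball_mem_nhds (0 : ℂ) hδ] with x hx
    rw [mem_ball_zero_iff] at hx
    have hmv := mvi01 (f := fun t : ℝ => f ((t : ℂ) * x) - Hg (n + 1) (ic n A B) ((t : ℂ) * x))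
      (f' := fun t : ℝ => fderiv ℝ f ((t : ℂ) * x) x - t ^ n *
        (((n : ℝ) + 1) * Hg (n + 1) (ic n A B) x)) (K := (|K1| + |K2|) * ‖x‖ ^ (n + 1 + 1))
      (fun t _ _ => by
        have h1 : HasDerivAt (fun t : ℝ => (t : ℂ) * x) x t := by
          have := (Complex.ofRealCLM.hasDerivAt (x := t)).mul_const x
          simpa using this
        have h2 : HasDerivAt (fun t : ℝ => f ((t : ℂ) * x)) (fderiv ℝ f ((t : ℂ) * x) x) t :=
          (hd _).hasFDerivAt.comp_hasDerivAt t h1
        have h3 : (fun t : ℝ => Hg (n + 1) (ic n A B) ((t : ℂ) * x)) =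
            fun t : ℝ => t ^ (n + 1) * Hg (n + 1) (ic n A B) x :=
          funext fun t => Hg_smul _ _ _ _
        have h4 : HasDerivAt (fun t : ℝ => Hg (n + 1) (ic n A B) ((t : ℂ) * x))
            (t ^ n * (((n : ℝ) + 1) * Hg (n + 1) (ic n A B) x)) t := by
          rw [h3]
          refine ((hasDerivAt_pow (n + 1) t).mul_const _).congr_deriv ?_
          push_cast
          ring
        exact h2.sub h4)
      (fun t ht0 ht1 => by
        set y : ℂ := (t : ℂ) * x with hy
        have hyx : ‖y‖ ≤ ‖x‖ := by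
          rw [hy, norm_mul, Complex.norm_real, Real.norm_eq_abs, abs_of_nonneg ht0]
          exact mul_le_of_le_one_left (norm_nonneg _) ht1
        obtain ⟨b1, b2⟩ := hball y (by rw [mem_ball_zero_iff]; exact hyx.trans_lt hx)
        rw [norm_pow, norm_norm, Real.norm_eq_abs] at b1 b2
        have hp : ‖y‖ ^ (n + 1) ≤ ‖x‖ ^ (n + 1) := pow_le_pow_left₀ (norm_nonneg _) hyx _
        have b1' : |fderiv ℝ f y 1 - Hg n A y| ≤ |K1| * ‖x‖ ^ (n + 1) :=
          b1.trans ((mul_le_mul_of_nonneg_right (le_abs_self _) (by positivity)).trans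
            (mul_le_mul_of_nonneg_left hp (abs_nonneg _)))
        have b2' : |fderiv ℝ f y Complex.I - Hg n B y| ≤ |K2| * ‖x‖ ^ (n + 1) :=
          b2.trans ((mul_le_mul_of_nonneg_right (le_abs_self _) (by positivity)).trans
            (mul_le_mul_of_nonneg_left hp (abs_nonneg _)))
        have e1 : fderiv ℝ f y x = x.re * fderiv ℝ f y 1 + x.im * fderiv ℝ f y Complex.I := by
          have : x = x.re • (1 : ℂ) + x.im • Complex.I := by apply Complex.ext <;> simp
          conv_lhs => rw [this]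
          rw [map_add, map_smul, map_smul, smul_eq_mul, smul_eq_mul]
        have e2 : fderiv ℝ f y x - t ^ n * (((n : ℝ) + 1) * Hg (n + 1) (ic n A B) x) =
            x.re * (fderiv ℝ f y 1 - Hg n A y) + x.im * (fderiv ℝ f y Complex.I - Hg n B y) := by
          rw [e1, Hg_ic, hy, Hg_smul, Hg_smul]
          ring
        rw [e2]
        refine (abs_add_le _ _).trans ?_
        rw [abs_mul, abs_mul]
        have r1 : |x.re| ≤ ‖x‖ := Complex.abs_re_le_norm x
        have r2 : |x.im| ≤ ‖x‖ := Complex.abs_im_le_norm x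
        have m1 := mul_le_mul r1 b1' (abs_nonneg _) (norm_nonneg _)
        have m2 := mul_le_mul r2 b2' (abs_nonneg _) (norm_nonneg _)
        calc _ ≤ ‖x‖ * (|K1| * ‖x‖ ^ (n + 1)) + ‖x‖ * (|K2| * ‖x‖ ^ (n + 1)) := add_le_add m1 m2
          _ = _ := by ring)
    have hz : Hg (n + 1) (ic n A B) 0 = 0 := by
      have := Hg_smul (n + 1) (ic n A B) 0 0
      simpa using this
    simp only [Complex.ofReal_one, one_mul, Complex.ofReal_zero, zero_mul, h0, hz, sub_zero]
      at hmv
    rw [norm_pow, norm_norm, Real.norm_eq_abs]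
    exact hmv

end W320.CQH

namespace W320

open Pool.Agent.W722.Cq W320.CQH

lemma Mx_contDiff (j : ℕ) (c : ℕ → ℕ → ℂ) :
    ContDiff ℝ ((⊤ : ℕ∞) : WithTop ℕ∞) (Mx j c) := by
  have : ContDiff ℝ ((⊤ : ℕ∞) : WithTop ℕ∞) (fun x : ℂ => ∑ a ∈ Finset.Icc 1 j,
      ∑ b ∈ Finset.Icc 1 j, c a b * x ^ a * (starRingEnd ℂ x) ^ b) := by
    refine ContDiff.sum fun a _ => ContDiff.sum fun b _ => ?_
    have := contDiff_const (c := c a b) (𝕜 := ℝ) (n := ((⊤ : ℕ∞) : WithTop ℕ∞)) (E := ℂ)
    have h := this.mul (mo_contDiff a b)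
    have e : (fun x : ℂ => c a b * x ^ a * (starRingEnd ℂ x) ^ b) =
        fun x => c a b * mo a b x := by
      funext x; unfold mo; ring
    rw [e]
    exact h
  exact Complex.reCLM.contDiff.comp this

theorem ext (hD : S_DER) : S_EXT := by
  intro f j hf ⟨c, hc⟩
  obtain ⟨C, hC⟩ := hom_part hD (j + 1) (fun x => f x - Mx j c x) (hf.sub (Mx_contDiff j c)) hc
  refine ⟨C (j + 1) + starRingEnd ℂ (C 0), fun a b => (if a ≤ j ∧ b ≤ j then c a b else 0) +
    (if a + b = j + 1 then C a else 0), ?_⟩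
  refine IsBigO.congr_left hC fun x => ?_
  -- the mixed part
  have e1 : Mx (j + 1) (fun a b => (if a ≤ j ∧ b ≤ j then c a b else 0) +
      (if a + b = j + 1 then C a else 0)) x = Mx j c x +
      (∑ a ∈ Finset.Icc 1 j, C a * mo a (j + 1 - a) x).re := by
    unfold Mx
    rw [← Complex.add_re]
    congr 1
    have s1 : ∀ a ∈ Finset.Icc 1 (j + 1), ∑ b ∈ Finset.Icc 1 (j + 1),
        ((if a ≤ j ∧ b ≤ j then c a b else 0) + (if a + b = j + 1 then C a else 0)) *
        x ^ a * (starRingEnd ℂ x) ^ b =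
        (if a ≤ j then ∑ b ∈ Finset.Icc 1 j, c a b * x ^ a * (starRingEnd ℂ x) ^ b else 0) +
        (if a ≤ j then C a * mo a (j + 1 - a) x else 0) := by
      intro a ha
      rw [Finset.mem_Icc] at ha
      have t1 : ∑ b ∈ Finset.Icc 1 (j + 1), (if a ≤ j ∧ b ≤ j then c a b else 0) *
          x ^ a * (starRingEnd ℂ x) ^ b =
          if a ≤ j then ∑ b ∈ Finset.Icc 1 j, c a b * x ^ a * (starRingEnd ℂ x) ^ b else 0 := by
        rw [Finset.sum_Icc_succ_top (by omega), if_neg (by omega), zero_mul, zero_mul, add_zero]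
        split_ifs with haj
        · refine Finset.sum_congr rfl fun b hb => ?_
          rw [Finset.mem_Icc] at hb
          rw [if_pos ⟨haj, hb.2⟩]
        · refine Finset.sum_eq_zero fun b _ => ?_
          rw [if_neg (fun h => haj h.1), zero_mul, zero_mul]
      have t2 : ∑ b ∈ Finset.Icc 1 (j + 1), (if a + b = j + 1 then C a else 0) *
          x ^ a * (starRingEnd ℂ x) ^ b = if a ≤ j then C a * mo a (j + 1 - a) x else 0 := by
        split_ifs with haj
        · rw [Finset.sum_eq_single (j + 1 - a)]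
          · rw [if_pos (by omega)]; unfold mo; ring
          · intro b _ hb
            rw [if_neg (by omega), zero_mul, zero_mul]
          · intro h
            exfalso; apply h
            rw [Finset.mem_Icc]; omega
        · refine Finset.sum_eq_zero fun b hb => ?_
          rw [Finset.mem_Icc] at hb
          rw [if_neg (by omega), zero_mul, zero_mul]
      rw [← t1, ← t2, ← Finset.sum_add_distrib]
      refine Finset.sum_congr rfl fun b _ => ?_
      ring
    rw [Finset.sum_congr rfl s1, Finset.sum_Icc_succ_top (by omega), if_neg (by omega),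
      if_neg (by omega), add_zero, add_zero, ← Finset.sum_add_distrib]
    refine Finset.sum_congr rfl fun a ha => ?_
    rw [Finset.mem_Icc] at ha
    rw [if_pos ha.2, if_pos ha.2]
  have e2 : Hg (j + 1) C x = ((C (j + 1) + starRingEnd ℂ (C 0)) * x ^ (j + 1)).re +
      (∑ a ∈ Finset.Icc 1 j, C a * mo a (j + 1 - a) x).re := by
    unfold Hg
    rw [Finset.sum_range_succ, Finset.sum_range_succ', Complex.add_re, Complex.add_re]
    have u1 : ∑ a ∈ Finset.range j, C (a + 1) * mo (a + 1) (j + 1 - (a + 1)) x =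
        ∑ a ∈ Finset.Icc 1 j, C a * mo a (j + 1 - a) x := by
      rw [Finset.range_eq_Ico, Finset.sum_Ico_add' (fun a => C a * mo a (j + 1 - a) x) 0 j 1]
      rfl
    rw [u1]
    have u2 : (C 0 * mo 0 (j + 1 - 0) x).re = (starRingEnd ℂ (C 0) * x ^ (j + 1)).re := by
      rw [← Complex.conj_re]
      congr 1
      simp [mo]
    have u3 : C (j + 1) * mo (j + 1) (j + 1 - (j + 1)) x = C (j + 1) * x ^ (j + 1) := by
      simp [mo]
    rw [u2, u3, add_mul, Complex.add_re]
    ring
  rw [e1, e2]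
  ring

end W320
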