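import Pool.Agent.W722.Cq.Stm

/-! Project CQ: the Laplacian of mixed homogeneous polynomials. -/

set_option autoImplicit false

open Metric Set Filter Topology Asymptotics

namespace W320.CQH

open Pool.Agent.W722.Cq

/-- the monomial `x^a conj(x)^b` -/
noncomputable def mo (a b : ℕ) (x : ℂ) : ℂ := x ^ a * (starRingEnd ℂ x) ^ b

lemma mo_hasFDerivAt (a b : ℕ) (x : ℂ) : ∃ L : ℂ →L[ℝ] ℂ,
    HasFDerivAt (𝕜 := ℝ) (mo a b) L x ∧
    ∀ v, L v = v * a * mo (a - 1) b x + starRingEnd ℂ v * b * mo a (b - 1) x := by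
  have h1 : HasFDerivAt (𝕜 := ℝ) (fun x : ℂ => x ^ a) _ x :=
    (hasDerivAt_pow a x).hasFDerivAt.restrictScalars ℝ
  have h2 : HasFDerivAt (𝕜 := ℝ) (fun x : ℂ => (starRingEnd ℂ x) ^ b) _ x :=
    ((hasDerivAt_pow b (starRingEnd ℂ x)).hasFDerivAt.restrictScalars ℝ).comp x
      (Complex.conjCLE : ℂ ≃L[ℝ] ℂ).hasFDerivAt
  have h3 := h1.mul h2
  refine ⟨_, h3, fun v => ?_⟩
  simp [mo]
  ring

lemma mo_contDiff (a b : ℕ) : ContDiff ℝ ((⊤ : ℕ∞) : WithTop ℕ∞) (mo a b) := by
  unfold mo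
  exact (contDiff_id.pow a).mul (((Complex.conjCLE : ℂ ≃L[ℝ] ℂ).contDiff).pow b)

/-- real parts of finite combinations of monomials -/
noncomputable def cmb (s : Finset ℕ) (k : ℕ → ℂ) (a b : ℕ → ℕ) (x : ℂ) : ℝ :=
  (∑ i ∈ s, k i * mo (a i) (b i) x).re

lemma cmb_contDiff (s : Finset ℕ) (k : ℕ → ℂ) (a b : ℕ → ℕ) :
    ContDiff ℝ ((⊤ : ℕ∞) : WithTop ℕ∞) (cmb s k a b) := by
  have : ContDiff ℝ ((⊤ : ℕ∞) : WithTop ℕ∞) (fun x => ∑ i ∈ s, k i * mo (a i) (b i) x) :=
    ContDiff.sum fun i _ => contDiff_const.mul (mo_contDiff _ _)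
  exact Complex.reCLM.contDiff.comp this

lemma cmb_fderiv (s : Finset ℕ) (k : ℕ → ℂ) (a b : ℕ → ℕ) (x v : ℂ) :
    fderiv ℝ (cmb s k a b) x v =
      cmb s (fun i => k i * v * a i) (fun i => a i - 1) b x +
      cmb s (fun i => k i * starRingEnd ℂ v * b i) a (fun i => b i - 1) x := by
  choose L hL hL' using fun i => mo_hasFDerivAt (a i) (b i) x
  have h1 : HasFDerivAt (𝕜 := ℝ) (fun x => ∑ i ∈ s, k i * mo (a i) (b i) x)
      (∑ i ∈ s, k i • L i) x := HasFDerivAt.fun_sum fun i _ => (hL i).const_mul (k i)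
  have h2 : HasFDerivAt (𝕜 := ℝ) (cmb s k a b) (Complex.reCLM.comp (∑ i ∈ s, k i • L i)) x :=
    Complex.reCLM.hasFDerivAt.comp x h1
  rw [h2.fderiv]
  simp only [ContinuousLinearMap.comp_apply, ContinuousLinearMap.sum_apply,
    ContinuousLinearMap.smul_apply, Complex.reCLM_apply, smul_eq_mul, hL', cmb]
  rw [← Complex.add_re, ← Finset.sum_add_distrib]
  congr 1
  refine Finset.sum_congr rfl fun i _ => ?_
  ring

lemma lap_eq {f : ℂ → ℝ} (hf : ContDiff ℝ ((⊤ : ℕ∞) : WithTop ℕ∞) f) (x : ℂ) :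
    Lap f x = fderiv ℝ (fun y => fderiv ℝ f y 1) x 1 +
      fderiv ℝ (fun y => fderiv ℝ f y Complex.I) x Complex.I := by
  have hd : DifferentiableAt ℝ (fderiv ℝ f) x := by
    have : ContDiff ℝ 1 (fderiv ℝ f) := hf.fderiv_right (by norm_cast)
    exact (this.differentiable (by norm_num)) x
  unfold Lap
  rw [fderiv_clm_apply hd (differentiableAt_const _), fderiv_clm_apply hd (differentiableAt_const _)]
  simp

lemma lap_cmb (s : Finset ℕ) (k : ℕ → ℂ) (a b : ℕ → ℕ) (x : ℂ) :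
    Lap (cmb s k a b) x =
      cmb s (fun i => 4 * k i * a i * b i) (fun i => a i - 1) (fun i => b i - 1) x := by
  rw [lap_eq (cmb_contDiff s k a b)]
  have hD : ∀ v : ℂ, fderiv ℝ (fun y => fderiv ℝ (cmb s k a b) y v) x v =
      cmb s (fun i => k i * v * a i * v * (a i - 1 : ℕ)) (fun i => a i - 1 - 1) b x +
      cmb s (fun i => k i * v * a i * starRingEnd ℂ v * b i) (fun i => a i - 1)
        (fun i => b i - 1) x +
      (cmb s (fun i => k i * starRingEnd ℂ v * b i * v * a i) (fun i => a i - 1)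
        (fun i => b i - 1) x +
      cmb s (fun i => k i * starRingEnd ℂ v * b i * starRingEnd ℂ v * (b i - 1 : ℕ)) a
        (fun i => b i - 1 - 1) x) := by
    intro v
    have e : (fun y => fderiv ℝ (cmb s k a b) y v) = fun y =>
        cmb s (fun i => k i * v * a i) (fun i => a i - 1) b y +
        cmb s (fun i => k i * starRingEnd ℂ v * b i) a (fun i => b i - 1) y :=
      funext fun y => cmb_fderiv s k a b y v
    rw [e, fderiv_fun_add, ContinuousLinearMap.add_apply, cmb_fderiv, cmb_fderiv]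
    · exact ((cmb_contDiff _ _ _ _).differentiable (by norm_num)) x
    · exact ((cmb_contDiff _ _ _ _).differentiable (by norm_num)) x
  rw [hD, hD]
  simp only [cmb, ← Complex.add_re, ← Finset.sum_add_distrib]
  congr 1
  refine Finset.sum_congr rfl fun i _ => ?_
  simp only [map_one, Complex.conj_I]
  have hI : Complex.I * Complex.I = -1 := Complex.I_mul_I
  linear_combination (k i * a i * (a i - 1 : ℕ) * mo (a i - 1 - 1) (b i) x +
    k i * b i * (b i - 1 : ℕ) * mo (a i) (b i - 1 - 1) x -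
    2 * k i * a i * b i * mo (a i - 1) (b i - 1) x) * hI

lemma Hm_cmb (d : ℕ) (c : ℕ → ℂ) :
    Hm d c = cmb (Finset.Ioo 0 d) c (fun a => a) (fun a => d - a) := by
  funext x
  simp only [Hm, cmb, mo, mul_assoc]

/-- formula for the Laplacian -/
lemma lapH (d : ℕ) (c : ℕ → ℂ) (x : ℂ) :
    Lap (Hm d c) x = (∑ a ∈ Finset.Ioo 0 d,
      4 * c a * a * ((d - a : ℕ) : ℂ) * mo (a - 1) (d - a - 1) x).re := by
  rw [Hm_cmb, lap_cmb]
  rfl

lemma Hm_contDiff (d : ℕ) (c : ℕ → ℂ) :
    ContDiff ℝ ((⊤ : ℕ∞) : WithTop ℕ∞) (Hm d c) := by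
  rw [Hm_cmb]; exact cmb_contDiff _ _ _ _

lemma mo_smul (a b : ℕ) (s : ℝ) (x : ℂ) :
    mo a b ((s : ℂ) * x) = ((s ^ (a + b) : ℝ) : ℂ) * mo a b x := by
  unfold mo
  rw [map_mul, Complex.conj_ofReal, mul_pow, mul_pow, pow_add, Complex.ofReal_mul,
    Complex.ofReal_pow, Complex.ofReal_pow]
  ring

lemma lapH_smul (d : ℕ) (c : ℕ → ℂ) (s : ℝ) (x : ℂ) :
    Lap (Hm d c) ((s : ℂ) * x) = s ^ (d - 2) * Lap (Hm d c) x := by
  rw [lapH, lapH, ← Complex.re_ofReal_mul, Finset.mul_sum]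
  congr 1
  refine Finset.sum_congr rfl fun a ha => ?_
  rw [Finset.mem_Ioo] at ha
  rw [mo_smul, show a - 1 + (d - a - 1) = d - 2 by omega]
  ring

/-- symmetrised coefficients -/
noncomputable def ec (d : ℕ) (c : ℕ → ℂ) (a : ℕ) : ℂ :=
  c a + starRingEnd ℂ (c (d - a))

lemma sym_sum (d : ℕ) (c : ℕ → ℂ) (w : ℕ → ℂ) (x : ℂ) (p : ℕ)
    (hw : ∀ a ∈ Finset.Ioo 0 d, starRingEnd ℂ (w a) = w (d - a)) :
    (((∑ a ∈ Finset.Ioo 0 d, c a * w a * mo (a - p) (d - a - p) x).re : ℝ) : ℂ) =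
      (1 / 2) * ∑ a ∈ Finset.Ioo 0 d, ec d c a * w a * mo (a - p) (d - a - p) x := by
  rw [Complex.re_eq_add_conj]
  have h1 : starRingEnd ℂ (∑ a ∈ Finset.Ioo 0 d, c a * w a * mo (a - p) (d - a - p) x) =
      ∑ a ∈ Finset.Ioo 0 d, starRingEnd ℂ (c (d - a)) * w a * mo (a - p) (d - a - p) x := by
    rw [map_sum]
    refine Finset.sum_nbij' (fun a => d - a) (fun a => d - a) ?_ ?_ ?_ ?_ ?_
    · intro a ha; rw [Finset.mem_Ioo] at ha ⊢; omega
    · intro a ha; rw [Finset.mem_Ioo] at ha ⊢; omega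
    · intro a ha; rw [Finset.mem_Ioo] at ha; omega
    · intro a ha; rw [Finset.mem_Ioo] at ha; omega
    · intro a ha
      have hwa := hw a ha
      rw [Finset.mem_Ioo] at ha
      have e : d - (d - a) = a := by omega
      rw [map_mul, map_mul, hwa, e]
      simp only [mo, map_mul, map_pow, Complex.conj_conj]
      ring
  rw [h1, ← Finset.sum_add_distrib, div_eq_mul_inv, mul_comm, Finset.mul_sum, Finset.mul_sum]
  refine Finset.sum_congr rfl fun a _ => ?_
  unfold ec
  ring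

lemma circle_infinite : (sphere (0 : ℂ) 1).Infinite := by
  have h1 : IsPreconnected (sphere (0 : ℂ) 1) :=
    isPreconnected_sphere (by rw [Complex.rank_real_complex]; norm_num) 0 1
  refine h1.infinite_of_nontrivial ⟨1, by simp, -1, by simp, ?_⟩
  intro h
  have := congrArg Complex.re h
  norm_num at this

/-- injectivity of the Laplacian on mixed homogeneous polynomials -/
lemma inj (d : ℕ) (c : ℕ → ℂ) (h : ∀ x : ℂ, Lap (Hm d c) x = 0) (x : ℂ) :
    Hm d c x = 0 := by
  have hec : ∀ a ∈ Finset.Ioo 0 d, ec d c a = 0 := by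
    set Q : Polynomial ℂ := ∑ a ∈ Finset.Ioo 0 d,
      Polynomial.monomial (2 * a) (ec d c a * (a * ((d - a : ℕ) : ℂ))) with hQ
    have hroot : ∀ y ∈ sphere (0 : ℂ) 1, Q.IsRoot y := by
      intro y hy
      rw [mem_sphere_zero_iff_norm] at hy
      have h1 := h y
      rw [lapH] at h1
      have h2 : (∑ a ∈ Finset.Ioo 0 d,
          4 * c a * a * ((d - a : ℕ) : ℂ) * mo (a - 1) (d - a - 1) y) =
          ∑ a ∈ Finset.Ioo 0 d,
          c a * (4 * (a * ((d - a : ℕ) : ℂ))) * mo (a - 1) (d - a - 1) y :=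
        Finset.sum_congr rfl fun a _ => by ring
      rw [h2] at h1
      have h3 := sym_sum d c (fun a => 4 * (a * ((d - a : ℕ) : ℂ))) y 1 (by
        intro a ha
        rw [Finset.mem_Ioo] at ha
        have e : d - (d - a) = a := by omega
        simp only [map_mul, map_natCast, e]
        have h4 : starRingEnd ℂ (4 : ℂ) = 4 := by
          have := map_natCast (starRingEnd ℂ) 4
          simpa using this
        rw [h4]
        ring)
      rw [h1] at h3
      have h5 : ∑ a ∈ Finset.Ioo 0 d,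
          ec d c a * (4 * (a * ((d - a : ℕ) : ℂ))) * mo (a - 1) (d - a - 1) y = 0 := by
        have := h3.symm
        simpa using this
      have hyy : y * starRingEnd ℂ y = 1 := by
        rw [Complex.mul_conj, Complex.normSq_eq_norm_sq, hy]; simp
      rw [Polynomial.IsRoot.def, hQ, Polynomial.eval_finset_sum]
      have h6 : ∑ a ∈ Finset.Ioo 0 d, Polynomial.eval y
          (Polynomial.monomial (2 * a) (ec d c a * (a * ((d - a : ℕ) : ℂ)))) =
          (y ^ d / 4) * ∑ a ∈ Finset.Ioo 0 d,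
          ec d c a * (4 * (a * ((d - a : ℕ) : ℂ))) * mo (a - 1) (d - a - 1) y := by
        rw [Finset.mul_sum]
        refine Finset.sum_congr rfl fun a ha => ?_
        rw [Finset.mem_Ioo] at ha
        rw [Polynomial.eval_monomial]
        have e : y ^ d * mo (a - 1) (d - a - 1) y = y ^ (2 * a) := by
          unfold mo
          have e1 : y ^ d = y ^ (a + 1) * y ^ (d - a - 1) := by
            rw [← pow_add]; congr 1; omega
          have e2 : y ^ (2 * a) = y ^ (a + 1) * y ^ (a - 1) := by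
            rw [← pow_add]; congr 1; omega
          calc y ^ d * (y ^ (a - 1) * (starRingEnd ℂ y) ^ (d - a - 1))
              = y ^ (a + 1) * y ^ (a - 1) * (y * starRingEnd ℂ y) ^ (d - a - 1) := by
                rw [e1, mul_pow]; ring
            _ = y ^ (2 * a) := by rw [hyy, one_pow, mul_one, e2]
        rw [← e]
        ring
      rw [h6, h5, mul_zero]
    have hQ0 : Q = 0 := Polynomial.eq_zero_of_infinite_isRoot Q
      (circle_infinite.mono fun y hy => hroot y hy)
    intro a ha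
    have hc := congrArg (fun P => Polynomial.coeff P (2 * a)) hQ0
    simp only [hQ, Polynomial.finset_sum_coeff, Polynomial.coeff_monomial,
      Polynomial.coeff_zero] at hc
    rw [Finset.sum_eq_single a] at hc
    · rw [if_pos rfl] at hc
      rw [Finset.mem_Ioo] at ha
      have h1 : (a : ℂ) ≠ 0 := by exact_mod_cast (show a ≠ 0 by omega)
      have h2 : ((d - a : ℕ) : ℂ) ≠ 0 := by exact_mod_cast (show d - a ≠ 0 by omega)
      exact (mul_eq_zero.1 hc).resolve_right (mul_ne_zero h1 h2)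
    · intro b _ hb
      rw [if_neg (by omega)]
    · intro hna; exact absurd ha hna
  have h1 := sym_sum d c (fun _ => 1) x 0 (by intro a _; simp)
  have h2 : ∑ a ∈ Finset.Ioo 0 d, ec d c a * 1 * mo (a - 0) (d - a - 0) x = 0 :=
    Finset.sum_eq_zero fun a ha => by rw [hec a ha]; ring
  rw [h2, mul_zero] at h1
  have h3 : Hm d c x = (∑ a ∈ Finset.Ioo 0 d, c a * 1 * mo (a - 0) (d - a - 0) x).re := by
    rw [Hm_cmb]; simp only [cmb, mul_one, Nat.sub_zero]
  rw [h3]
  exact_mod_cast h1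

lemma lap_sub {f g : ℂ → ℝ} (hf : ContDiff ℝ ((⊤ : ℕ∞) : WithTop ℕ∞) f)
    (hg : ContDiff ℝ ((⊤ : ℕ∞) : WithTop ℕ∞) g) (x : ℂ) :
    Lap (fun y => f y - g y) x = Lap f x - Lap g x := by
  have hdf : ∀ y, DifferentiableAt ℝ f y := hf.differentiable (by norm_num)
  have hdg : ∀ y, DifferentiableAt ℝ g y := hg.differentiable (by norm_num)
  have h1 : fderiv ℝ (fun y => f y - g y) = fun y => fderiv ℝ f y - fderiv ℝ g y :=
    funext fun y => fderiv_fun_sub (hdf y) (hdg y)
  have hdf' : DifferentiableAt ℝ (fderiv ℝ f) x := by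
    have : ContDiff ℝ 1 (fderiv ℝ f) := hf.fderiv_right (by norm_cast)
    exact (this.differentiable (by norm_num)) x
  have hdg' : DifferentiableAt ℝ (fderiv ℝ g) x := by
    have : ContDiff ℝ 1 (fderiv ℝ g) := hg.fderiv_right (by norm_cast)
    exact (this.differentiable (by norm_num)) x
  unfold Lap
  rw [h1, fderiv_fun_sub hdf' hdg']
  simp only [ContinuousLinearMap.sub_apply]
  ring

end W320.CQH

namespace W320

open Pool.Agent.W722.Cq W320.CQH

theorem hom (hD : S_DER) : S_HOM := by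
  refine ⟨?_, inj, ?_⟩
  · intro f d c hd hf hO ⟨C, hC⟩ x
    have hH := Hm_contDiff d c
    have h1 := (hD (fun x => f x - Hm d c x) (hf.sub hH)).2 (d - 1) (by
      rwa [show d - 1 + 2 = d + 1 by omega])
    obtain ⟨C', hC'⟩ := h1.bound
    have hev : ∀ᶠ y : ℂ in 𝓝 0, -((C + C') * ‖y‖ ^ (d - 1)) ≤ Lap (Hm d c) y := by
      filter_upwards [hC, hC'] with y hy hy'
      rw [lap_sub hf hH, Real.norm_eq_abs, norm_pow, norm_norm] at hy'
      have := (abs_le.1 hy').2
      linarith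
    have ht : Tendsto (fun s : ℝ => ((s : ℂ) * x)) (𝓝[>] 0) (𝓝 0) := by
      have : Tendsto (fun s : ℝ => ((s : ℂ) * x)) (𝓝 0) (𝓝 (((0 : ℝ) : ℂ) * x)) :=
        (Continuous.tendsto (by fun_prop) 0)
      rw [Complex.ofReal_zero, zero_mul] at this
      exact this.mono_left nhdsWithin_le_nhds
    have hev2 : ∀ᶠ s : ℝ in 𝓝[>] 0, -((C + C') * ‖x‖ ^ (d - 1)) * s ≤ Lap (Hm d c) x := by
      filter_upwards [ht.eventually hev, self_mem_nhdsWithin] with s hs hs0
      have hs0 : 0 < s := hs0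
      rw [lapH_smul, norm_mul, Complex.norm_real, Real.norm_eq_abs, abs_of_pos hs0, mul_pow,
        show d - 1 = (d - 2) + 1 by omega, pow_succ s] at hs
      have hsp : 0 < s ^ (d - 2) := by positivity
      have h2 : s ^ (d - 2) * (-((C + C') * ‖x‖ ^ (d - 2 + 1)) * s) ≤
          s ^ (d - 2) * Lap (Hm d c) x := by
        refine le_trans (le_of_eq ?_) hs
        ring
      have h3 := le_of_mul_le_mul_left h2 hsp
      rwa [show d - 1 = (d - 2) + 1 by omega]
    have ht2 : Tendsto (fun s : ℝ => -((C + C') * ‖x‖ ^ (d - 1)) * s) (𝓝[>] 0) (𝓝 0) := by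
      have : Tendsto (fun s : ℝ => -((C + C') * ‖x‖ ^ (d - 1)) * s) (𝓝 0)
          (𝓝 (-((C + C') * ‖x‖ ^ (d - 1)) * 0)) := Continuous.tendsto (by fun_prop) 0
      rw [mul_zero] at this
      exact this.mono_left nhdsWithin_le_nhds
    exact le_of_tendsto ht2 hev2
  · intro d c hodd h x
    refine inj d c (fun y => ?_) x
    rcases Nat.lt_or_ge d 2 with h2 | h2
    · rw [lapH]
      have : Finset.Ioo 0 d = ∅ := by
        ext a; simp only [Finset.mem_Ioo, Finset.notMem_empty, iff_false]; omega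
      rw [this]; simp
    · have h1 := lapH_smul d c (-1) y
      have h3 := h (((-1 : ℝ) : ℂ) * y)
      have h4 := h y
      have : Odd (d - 2) := by
        obtain ⟨k, hk⟩ := hodd
        exact ⟨k - 1, by omega⟩
      rw [h1, this.neg_one_pow] at h3
      linarith

end W320
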