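import Pool.Agent.W722.Cq.Stm

/-! Project CQ: the lowest homogeneous part. -/

set_option autoImplicit false

open Metric Set Filter Topology Asymptotics

namespace W320

open Pool.Agent.W722.Cq

/-- one monomial -/
private noncomputable def mon (c : ℕ → ℕ → ℂ) (x : ℂ) (p : ℕ × ℕ) : ℂ :=
  c p.1 p.2 * x ^ p.1 * (starRingEnd ℂ x) ^ p.2

/-- index set -/
private def II (N : ℕ) : Finset (ℕ × ℕ) := Finset.Icc 1 N ×ˢ Finset.Icc 1 N

/-- coefficients of the part of degree `d` -/
private noncomputable def cd (N : ℕ) (c : ℕ → ℕ → ℂ) (d : ℕ) (a : ℕ) : ℂ :=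
  if a ≤ N ∧ d - a ≤ N then c a (d - a) else 0

private lemma Mx_eq (N : ℕ) (c : ℕ → ℕ → ℂ) (x : ℂ) :
    Mx N c x = (∑ p ∈ II N, mon c x p).re := by
  unfold Mx II mon
  rw [Finset.sum_product]

private lemma Hm_eq (N : ℕ) (c : ℕ → ℕ → ℂ) (d : ℕ) (x : ℂ) :
    Hm d (cd N c d) x = (∑ p ∈ (II N).filter (fun p => p.1 + p.2 = d), mon c x p).re := by
  unfold Hm
  congr 1
  have h1 : ∑ a ∈ Finset.Ioo 0 d, cd N c d a * x ^ a * (starRingEnd ℂ x) ^ (d - a) =
      ∑ a ∈ (Finset.Ioo 0 d).filter (fun a => a ≤ N ∧ d - a ≤ N),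
        mon c x (a, d - a) := by
    rw [Finset.sum_filter]
    refine Finset.sum_congr rfl fun a _ => ?_
    unfold cd mon
    split_ifs <;> simp
  rw [h1]
  refine Finset.sum_nbij' (fun a => (a, d - a)) (fun p => p.1) ?_ ?_ ?_ ?_ ?_
  · intro a ha
    simp only [Finset.mem_filter, Finset.mem_Ioo] at ha
    simp only [II, Finset.mem_filter, Finset.mem_product, Finset.mem_Icc]
    omega
  · intro p hp
    simp only [II, Finset.mem_filter, Finset.mem_product, Finset.mem_Icc] at hp
    simp only [Finset.mem_filter, Finset.mem_Ioo]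
    omega
  · intro a _; rfl
  · intro p hp
    simp only [II, Finset.mem_filter, Finset.mem_product, Finset.mem_Icc] at hp
    obtain ⟨p1, p2⟩ := p
    simp only [Prod.mk.injEq, true_and]
    simp only at hp
    omega
  · intro a _; rfl

/-- the part of degree less than `k` vanishes if all homogeneous parts do -/
private lemma low_zero (N : ℕ) (c : ℕ → ℕ → ℂ) (x : ℂ) (k : ℕ)
    (h : ∀ d, 2 ≤ d → d < k → Hm d (cd N c d) x = 0) :
    (∑ p ∈ (II N).filter (fun p => p.1 + p.2 < k), mon c x p).re = 0 := by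
  induction k with
  | zero => simp
  | succ k ih =>
    have e : (II N).filter (fun p => p.1 + p.2 < k + 1) =
        (II N).filter (fun p => p.1 + p.2 < k) ∪ (II N).filter (fun p => p.1 + p.2 = k) := by
      ext p
      simp only [Finset.mem_filter, Finset.mem_union]
      constructor
      · rintro ⟨h1, h2⟩
        rcases Nat.lt_succ_iff_lt_or_eq.1 h2 with h3 | h3
        · exact Or.inl ⟨h1, h3⟩
        · exact Or.inr ⟨h1, h3⟩
      · rintro (⟨h1, h2⟩ | ⟨h1, h2⟩) <;> exact ⟨h1, by omega⟩
    rw [e, Finset.sum_union, Complex.add_re, ih fun d hd hdk => h d hd (by omega), zero_add]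
    · rw [← Hm_eq]
      by_cases hk : 2 ≤ k
      · exact h k hk (by omega)
      · rw [Hm_eq]
        have : (II N).filter (fun p => p.1 + p.2 = k) = ∅ := by
          rw [Finset.filter_eq_empty_iff]
          intro p hp
          simp only [II, Finset.mem_product, Finset.mem_Icc] at hp
          omega
        rw [this]; simp
    · rw [Finset.disjoint_filter]
      intro p _ h1 h2
      omega

private lemma tail_O (N : ℕ) (c : ℕ → ℕ → ℂ) (k : ℕ) :
    (fun x : ℂ => (∑ p ∈ (II N).filter (fun p => ¬ p.1 + p.2 < k), mon c x p).re)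
      =O[𝓝 (0 : ℂ)] (fun x => ‖x‖ ^ k) := by
  refine IsBigO.of_bound (∑ p ∈ (II N).filter (fun p => ¬ p.1 + p.2 < k), ‖c p.1 p.2‖) ?_
  have : ∀ᶠ x : ℂ in 𝓝 (0 : ℂ), ‖x‖ < 1 := by
    have := ball_mem_nhds (0 : ℂ) one_pos
    filter_upwards [this] with x hx
    simpa using hx
  filter_upwards [this] with x hx
  rw [Real.norm_eq_abs]
  refine (Complex.abs_re_le_norm _).trans ?_
  rw [norm_pow, norm_norm, Finset.sum_mul]
  refine norm_sum_le_of_le _ fun p hp => ?_
  simp only [Finset.mem_filter, not_lt] at hp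
  unfold mon
  rw [norm_mul, norm_mul, norm_pow, norm_pow, RCLike.norm_conj, mul_assoc, ← pow_add]
  exact mul_le_mul_of_nonneg_left (pow_le_pow_of_le_one (norm_nonneg _) hx.le hp.2)
    (norm_nonneg _)

theorem low : S_LOW := by
  intro f N M hMN hP hf
  obtain ⟨c, hc⟩ := hP
  have split : ∀ (k : ℕ) (x : ℂ), Mx N c x =
      (∑ p ∈ (II N).filter (fun p => p.1 + p.2 < k), mon c x p).re +
      (∑ p ∈ (II N).filter (fun p => ¬ p.1 + p.2 < k), mon c x p).re := by
    intro k x
    rw [Mx_eq, ← Complex.add_re, Finset.sum_filter_add_sum_filter_not]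
  have hO : ∀ k ≤ N + 1, (fun x : ℂ => ‖x‖ ^ (N + 1)) =O[𝓝 (0 : ℂ)] (fun x => ‖x‖ ^ k) := by
    intro k hk
    refine IsBigO.of_bound 1 ?_
    filter_upwards [ball_mem_nhds (0 : ℂ) one_pos] with x hx
    rw [mem_ball_zero_iff] at hx
    rw [one_mul, norm_pow, norm_pow, norm_norm]
    exact pow_le_pow_of_le_one (norm_nonneg _) hx.le hk
  by_cases hex : ∃ d, 2 ≤ d ∧ d ≤ M ∧ ∃ x : ℂ, Hm d (cd N c d) x ≠ 0
  · classical
    obtain ⟨h2, hM, hx⟩ := Nat.find_spec hex
    set d := Nat.find hex with hd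
    have hmin : ∀ k, 2 ≤ k → k < d → ∀ x : ℂ, Hm k (cd N c k) x = 0 := by
      intro k hk hkd x
      by_contra hne
      exact Nat.find_min hex hkd ⟨hk, by omega, x, hne⟩
    refine ⟨d, cd N c d, h2, hM, hx, ?_⟩
    have e : ∀ x, f x - Hm d (cd N c d) x = (f x - Mx N c x) +
        (∑ p ∈ (II N).filter (fun p => ¬ p.1 + p.2 < d + 1), mon c x p).re := by
      intro x
      have h1 := split d x
      rw [low_zero N c x d fun k hk hkd => hmin k hk hkd x, zero_add] at h1
      have h3 : (∑ p ∈ (II N).filter (fun p => ¬ p.1 + p.2 < d), mon c x p).re =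
          Hm d (cd N c d) x +
          (∑ p ∈ (II N).filter (fun p => ¬ p.1 + p.2 < d + 1), mon c x p).re := by
        rw [Hm_eq, ← Complex.add_re, ← Finset.sum_union]
        · congr 2
          ext p
          simp only [Finset.mem_filter, Finset.mem_union]
          constructor
          · rintro ⟨h1, h2⟩
            by_cases h3 : p.1 + p.2 = d
            · exact Or.inl ⟨h1, h3⟩
            · exact Or.inr ⟨h1, by omega⟩
          · rintro (⟨h1, h2⟩ | ⟨h1, h2⟩) <;> exact ⟨h1, by omega⟩
        · rw [Finset.disjoint_filter]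
          intro p _ h1 h2
          omega
      rw [h1, h3]
      ring
    refine IsBigO.congr_left ?_ fun x => (e x).symm
    exact (hc.trans (hO _ (by omega))).add (tail_O N c (d + 1))
  · exfalso
    push_neg at hex
    refine hf ?_
    have e : ∀ x, f x = (f x - Mx N c x) +
        (∑ p ∈ (II N).filter (fun p => ¬ p.1 + p.2 < M + 1), mon c x p).re := by
      intro x
      have h1 := split (M + 1) x
      rw [low_zero N c x (M + 1) fun k hk hkd => hex k hk (by omega) x, zero_add] at h1
      rw [h1]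
      ring
    refine IsBigO.congr_left ?_ fun x => (e x).symm
    exact (hc.trans (hO _ (by omega))).add (tail_O N c (M + 1))

end W320
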