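import Pool.Agent.W320.CQ_EXT

/-! Project CQ: vanishing of the mixed part of the coefficient of `(y, Im w)`. -/

set_option autoImplicit false

open Metric Set Filter Topology Asymptotics

namespace W320.CQH

open Pool.Agent.W722.Cq

section general

variable {E F : Type*} [NormedAddCommGroup E] [NormedSpace ℝ E] [NormedAddCommGroup F]
  [NormedSpace ℝ F]

/-- directional derivative -/
noncomputable def dd (v : E) (f : E → ℝ) (z : E) : ℝ := fderiv ℝ f z v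

lemma dd_smooth {f : E → ℝ} (hf : ContDiff ℝ ((⊤ : ℕ∞) : WithTop ℕ∞) f) (v : E) :
    ContDiff ℝ ((⊤ : ℕ∞) : WithTop ℕ∞) (dd v f) := by
  have : ContDiff ℝ ((⊤ : ℕ∞) : WithTop ℕ∞) (fderiv ℝ f) := hf.fderiv_right (by simp)
  exact this.clm_apply contDiff_const

lemma dd_comm {f : E → ℝ} (hf : ContDiff ℝ ((⊤ : ℕ∞) : WithTop ℕ∞) f) (v w : E) :
    dd v (dd w f) = dd w (dd v f) := by
  funext z
  have h1 := d2_eq hf z v w
  have h2 := d2_eq hf z w v
  have h3 := d2_symm hf z v w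
  unfold dd
  rw [← h1, ← h2, h3]

lemma dd_comp {f : F → ℝ} (hf : ContDiff ℝ ((⊤ : ℕ∞) : WithTop ℕ∞) f) (L : E →L[ℝ] F) (v : E) :
    dd v (fun x => f (L x)) = fun x => dd (L v) f (L x) := by
  funext z
  have hd : DifferentiableAt ℝ f (L z) := hf.differentiable (by norm_num) _
  exact congrArg (fun T : E →L[ℝ] ℝ => T v) (hd.hasFDerivAt.comp z L.hasFDerivAt).fderiv

lemma dd_add {f g : E → ℝ} (hf : ContDiff ℝ ((⊤ : ℕ∞) : WithTop ℕ∞) f)
    (hg : ContDiff ℝ ((⊤ : ℕ∞) : WithTop ℕ∞) g) (v : E) :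
    dd v (fun z => f z + g z) = fun z => dd v f z + dd v g z := by
  funext z
  unfold dd
  rw [fderiv_fun_add (hf.differentiable (by norm_num) z) (hg.differentiable (by norm_num) z)]
  simp

/-- second order Taylor estimate in a fixed direction, uniform in the base point -/
lemma taylor2 {g : E → ℝ} (hg : ContDiff ℝ ((⊤ : ℕ∞) : WithTop ℕ∞) g) (Y : E) :
    ∃ C δ : ℝ, 0 < C ∧ 0 < δ ∧ ∀ (b : E) (τ : ℝ), ‖b‖ < δ → |τ| < δ →
      |g (b + τ • Y) - g b - τ * dd Y g b| ≤ C * τ ^ 2 := by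
  have h1 : ContDiff ℝ 1 (fderiv ℝ g) := hg.fderiv_right (by norm_cast)
  obtain ⟨K, t, ht, hK⟩ := (h1.contDiffAt (x := 0)).exists_lipschitzOnWith
  obtain ⟨δ0, hδ0, hball⟩ := Metric.mem_nhds_iff.1 ht
  have hY : 0 < 1 + ‖Y‖ := by positivity
  refine ⟨K * ‖Y‖ ^ 2 + 1, δ0 / (1 + ‖Y‖), by positivity, by positivity, fun b τ hb hτ => ?_⟩
  have hb0 : b ∈ t := by
    refine hball ?_
    rw [mem_ball_zero_iff]
    refine hb.trans_le (div_le_self hδ0.le (by linarith [norm_nonneg Y]))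
  have hd : ∀ z, DifferentiableAt ℝ g z := hg.differentiable (by norm_num)
  have hmv := mvi01 (f := fun s : ℝ => g (b + (s * τ) • Y) - s * (τ * dd Y g b))
    (f' := fun s : ℝ => fderiv ℝ g (b + (s * τ) • Y) (τ • Y) - τ * dd Y g b)
    (K := K * ‖Y‖ ^ 2 * τ ^ 2)
    (fun s _ _ => by
      have e1 : HasDerivAt (fun s : ℝ => b + (s * τ) • Y) (τ • Y) s := by
        have := (((hasDerivAt_id s).mul_const τ).smul_const Y).const_add b
        simpa using this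
      have e2 := (hd (b + (s * τ) • Y)).hasFDerivAt.comp_hasDerivAt s e1
      have e3 : HasDerivAt (fun s : ℝ => s * (τ * dd Y g b)) (τ * dd Y g b) s := by
        simpa using (hasDerivAt_id s).mul_const (τ * dd Y g b)
      exact e2.sub e3)
    (fun s hs0 hs1 => by
      have hsτ : |s * τ| ≤ |τ| := by
        rw [abs_mul, abs_of_nonneg hs0]
        exact mul_le_of_le_one_left (abs_nonneg _) hs1
      have hbs : b + (s * τ) • Y ∈ t := by
        refine hball ?_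
        rw [mem_ball_zero_iff]
        calc ‖b + (s * τ) • Y‖ ≤ ‖b‖ + ‖(s * τ) • Y‖ := norm_add_le _ _
          _ = ‖b‖ + |s * τ| * ‖Y‖ := by rw [norm_smul, Real.norm_eq_abs]
          _ ≤ ‖b‖ + |τ| * ‖Y‖ := by gcongr
          _ < δ0 / (1 + ‖Y‖) + δ0 / (1 + ‖Y‖) * ‖Y‖ := by
            have : |τ| * ‖Y‖ ≤ δ0 / (1 + ‖Y‖) * ‖Y‖ := by gcongr
            linarith
          _ = δ0 := by field_simp
      have e4 : fderiv ℝ g (b + (s * τ) • Y) (τ • Y) - τ * dd Y g b =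
          τ * (fderiv ℝ g (b + (s * τ) • Y) - fderiv ℝ g b) Y := by
        rw [map_smul, smul_eq_mul, ContinuousLinearMap.sub_apply]
        unfold dd
        ring
      rw [e4, abs_mul]
      have e5 : |(fderiv ℝ g (b + (s * τ) • Y) - fderiv ℝ g b) Y| ≤ K * (|τ| * ‖Y‖) * ‖Y‖ := by
        rw [← Real.norm_eq_abs]
        refine (ContinuousLinearMap.le_opNorm _ _).trans
          (mul_le_mul_of_nonneg_right ?_ (norm_nonneg _))
        have := hK.norm_sub_le hbs hb0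
        refine this.trans ?_
        rw [add_sub_cancel_left, norm_smul, Real.norm_eq_abs]
        gcongr
      calc |τ| * |(fderiv ℝ g (b + (s * τ) • Y) - fderiv ℝ g b) Y|
          ≤ |τ| * (K * (|τ| * ‖Y‖) * ‖Y‖) := by gcongr
        _ = K * ‖Y‖ ^ 2 * |τ| ^ 2 := by ring
        _ = K * ‖Y‖ ^ 2 * τ ^ 2 := by rw [sq_abs])
  simp only [one_mul, zero_mul, zero_smul, add_zero, sub_zero] at hmv
  have e6 : g (b + τ • Y) - g b - τ * dd Y g b = g (b + τ • Y) - τ * dd Y g b - g b := by ring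
  rw [e6]
  refine hmv.trans ?_
  nlinarith [sq_nonneg τ]

end general

lemma lap_dd {f : ℂ → ℝ} (hf : ContDiff ℝ ((⊤ : ℕ∞) : WithTop ℕ∞) f) (x : ℂ) :
    Lap f x = dd 1 (dd 1 f) x + dd Complex.I (dd Complex.I f) x := lap_eq hf x

lemma Hm_O (d : ℕ) (c : ℕ → ℂ) : Hm d c =O[𝓝 (0 : ℂ)] (fun x => ‖x‖ ^ d) := by
  refine IsBigO.of_bound (∑ a ∈ Finset.Ioo 0 d, ‖c a‖) (Eventually.of_forall fun x => ?_)
  unfold Hm
  rw [Real.norm_eq_abs]
  refine (Complex.abs_re_le_norm _).trans ?_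
  rw [norm_pow, norm_norm, Finset.sum_mul]
  refine norm_sum_le_of_le _ fun a ha => ?_
  rw [Finset.mem_Ioo] at ha
  rw [norm_mul, norm_mul, norm_pow, norm_pow, RCLike.norm_conj, mul_assoc, ← pow_add,
    show a + (d - a) = d by omega]

lemma O_mono {f : ℂ → ℝ} {a b : ℕ} (hab : a ≤ b) (h : f =O[𝓝 (0 : ℂ)] (fun x => ‖x‖ ^ b)) :
    f =O[𝓝 (0 : ℂ)] (fun x => ‖x‖ ^ a) := by
  refine h.trans (IsBigO.of_bound 1 ?_)
  filter_upwards [ball_mem_nhds (0 : ℂ) one_pos] with x hx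
  rw [mem_ball_zero_iff] at hx
  rw [one_mul, norm_pow, norm_pow, norm_norm]
  exact pow_le_pow_of_le_one (norm_nonneg _) hx.le hab

/-- an explicit bound from `O` -/
lemma O_bd {f : ℂ → ℝ} {a : ℕ} (h : f =O[𝓝 (0 : ℂ)] (fun x => ‖x‖ ^ a)) :
    ∃ C δ : ℝ, 0 < C ∧ 0 < δ ∧ ∀ x : ℂ, ‖x‖ < δ → |f x| ≤ C * ‖x‖ ^ a := by
  obtain ⟨C, hC0, hC⟩ := h.exists_pos
  obtain ⟨δ, hδ, hb⟩ := Metric.eventually_nhds_iff_ball.1 hC.bound
  refine ⟨C, δ, hC0, hδ, fun x hx => ?_⟩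
  have := hb x (by rwa [mem_ball_zero_iff])
  rwa [norm_pow, norm_norm, Real.norm_eq_abs] at this

end W320.CQH

namespace W320

open Pool.Agent.W722.Cq W320.CQH

theorem rv (hD : S_DER) (hH : S_HOM) (hL : S_LOW) : S_RV := by
  intro k r m hm hr hP hcur hpure y σ
  by_contra hnot
  obtain ⟨d, c, hd2, hdm, hnz, hO⟩ := hL _ m m le_rfl (hpure y σ) hnot
  have hs := hr.smooth
  set Y : EE k := (0, y, (σ : ℂ) * Complex.I) with hY
  set ι : ℂ →L[ℝ] EE k := ContinuousLinearMap.inl ℝ ℂ (V k × ℂ) with hι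
  have hιx : ∀ x : ℂ, ι x = (x, 0, 0) := fun x => rfl
  have hιn : ∀ x : ℂ, ‖ι x‖ = ‖x‖ := fun x => by
    rw [hιx, Prod.norm_mk, Prod.norm_mk]; simp
  set ρ : ℂ → ℝ := Rc r y σ with hρ
  have hρe : ρ = fun x => dd Y r (ι x) := by
    funext x; rfl
  have hρs : ContDiff ℝ ((⊤ : ℕ∞) : WithTop ℕ∞) ρ := by
    rw [hρe]; exact (dd_smooth hs Y).comp ι.contDiff
  have hce : cur r = fun x => r (ι x) := by
    funext x; rfl
  have hcs : ContDiff ℝ ((⊤ : ℕ∞) : WithTop ℕ∞) (cur r) := by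
    rw [hce]; exact hs.comp ι.contDiff
  have hρO : ρ =O[𝓝 (0 : ℂ)] (fun x => ‖x‖ ^ d) := by
    have h1 := (O_mono (Nat.le_succ d) hO).add (Hm_O d c)
    refine h1.congr_left fun x => ?_
    simp
  -- the key estimate
  obtain ⟨C0, δ, hC0, hδ, hkey⟩ : ∃ C δ : ℝ, 0 < C ∧ 0 < δ ∧ ∀ (x : ℂ) (τ : ℝ), ‖x‖ < δ →
      |τ| < δ → -(τ * Lap ρ x) ≤ C * (‖x‖ ^ (2 * m - 2) + τ ^ 2 + |τ| * ‖x‖ ^ (d - 1)) := by
    set X : EE k := ι 1 with hX
    set X' : EE k := ι Complex.I with hX'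
    have hIX : Complex.I • X = X' := by
      rw [hX, hX', hιx, hιx]; simp
    have hXn : ‖X‖ = 1 := by rw [hX, hιn]; simp
    obtain ⟨K, ε, hK, hε, hpsc⟩ := hP
    -- Taylor in the direction Y
    obtain ⟨C1, δ1, hC1, hδ1, T1⟩ := taylor2 hs Y
    obtain ⟨C2, δ2, hC2, hδ2, T2⟩ := taylor2 (dd_smooth hs X) Y
    obtain ⟨C3, δ3, hC3, hδ3, T3⟩ := taylor2 (dd_smooth hs X') Y
    have hg4 : ContDiff ℝ ((⊤ : ℕ∞) : WithTop ℕ∞)
        (fun z => dd X (dd X r) z + dd X' (dd X' r) z) :=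
      (dd_smooth (dd_smooth hs X) X).add (dd_smooth (dd_smooth hs X') X')
    obtain ⟨C4, δ4, hC4, hδ4, T4⟩ := taylor2 hg4 Y
    -- values at tau = 0
    have v2 : ∀ v x, dd (ι v) r (ι x) = dd v (cur r) x := by
      intro v x; rw [hce, dd_comp hs ι v]
    have v4 : ∀ x, dd X (dd X r) (ι x) + dd X' (dd X' r) (ι x) = Lap (cur r) x := by
      intro x
      rw [lap_dd hcs, hce, dd_comp hs ι, dd_comp (dd_smooth hs _) ι, dd_comp hs ι,
        dd_comp (dd_smooth hs _) ι]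
    have w2 : ∀ v x, dd Y (dd (ι v) r) (ι x) = dd v ρ x := by
      intro v x
      rw [hρe, dd_comp (dd_smooth hs Y) ι v, dd_comm hs]
    have w4 : ∀ x, dd Y (fun z => dd X (dd X r) z + dd X' (dd X' r) z) (ι x) = Lap ρ x := by
      intro x
      rw [dd_add (dd_smooth (dd_smooth hs X) X) (dd_smooth (dd_smooth hs X') X'),
        lap_dd hρs, hρe, dd_comp (dd_smooth hs Y) ι, dd_comp (dd_smooth (dd_smooth hs Y) _) ι,
        dd_comp (dd_smooth hs Y) ι, dd_comp (dd_smooth (dd_smooth hs Y) _) ι]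
      have c1 : ∀ Z : EE k, dd Y (dd Z (dd Z r)) = dd Z (dd Z (dd Y r)) := by
        intro Z
        rw [dd_comm (dd_smooth hs Z) Y Z, dd_comm hs Y Z]
      simp only [c1]
      rfl
    -- bounds
    have hfd : ∀ {f : ℂ → ℝ} {n : ℕ} (v : ℂ),
        (fun x => fderiv ℝ f x) =O[𝓝 (0 : ℂ)] (fun x => ‖x‖ ^ n) →
        (dd v f) =O[𝓝 (0 : ℂ)] (fun x => ‖x‖ ^ n) := by
      intro f n v h
      refine IsBigO.trans (IsBigO.of_bound ‖v‖ (Eventually.of_forall fun x => ?_)) h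
      rw [mul_comm]
      exact (fderiv ℝ f x).le_opNorm v
    have hDc := ((hD (cur r) hcs).1 (2 * m - 1)
      (by rw [show 2 * m - 1 + 1 = 2 * m by omega]; exact hcur)).2
    have hDρ := ((hD ρ hρs).1 (d - 1)
      (by rw [show d - 1 + 1 = d by omega]; exact hρO)).2
    have hLc := (hD (cur r) hcs).2 (2 * m - 2)
      (by rw [show 2 * m - 2 + 2 = 2 * m by omega]; exact hcur)
    obtain ⟨A0, a0, hA0, ha0, B0⟩ := O_bd (O_mono (show 2 * m - 2 ≤ 2 * m by omega) hcur)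
    obtain ⟨A1, a1, hA1, ha1, B1⟩ :=
      O_bd (O_mono (show 2 * m - 2 ≤ 2 * m - 1 by omega) (hfd 1 hDc))
    obtain ⟨A2, a2, hA2, ha2, B2⟩ :=
      O_bd (O_mono (show 2 * m - 2 ≤ 2 * m - 1 by omega) (hfd Complex.I hDc))
    obtain ⟨A3, a3, hA3, ha3, B3⟩ := O_bd hLc
    obtain ⟨A4, a4, hA4, ha4, B4⟩ := O_bd (O_mono (show d - 1 ≤ d by omega) hρO)
    obtain ⟨A5, a5, hA5, ha5, B5⟩ := O_bd (hfd 1 hDρ)
    obtain ⟨A6, a6, hA6, ha6, B6⟩ := O_bd (hfd Complex.I hDρ)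
    have hYp : 0 < 1 + ‖Y‖ := by positivity
    set S : ℝ := A0 + A1 + A2 + A3 + A4 + A5 + A6 + C1 + C2 + C3 + C4 with hS
    refine ⟨(1 + K) * S, min (ε / (1 + ‖Y‖)) (min (min δ1 δ2) (min (min δ3 δ4)
      (min (min a0 a1) (min (min a2 a3) (min a4 (min a5 a6)))))), by positivity, ?_, ?_⟩
    · simp only [lt_min_iff]
      exact ⟨by positivity, ⟨hδ1, hδ2⟩, ⟨hδ3, hδ4⟩, ⟨ha0, ha1⟩, ⟨ha2, ha3⟩, ha4, ha5, ha6⟩
    intro x τ hx hτ
    simp only [lt_min_iff] at hx hτ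
    obtain ⟨hx0, ⟨hx1, hx2⟩, ⟨hx3, hx4⟩, ⟨hx5, hx6⟩, ⟨hx7, hx8⟩, hx9, hx10, hx11⟩ := hx
    obtain ⟨ht0, ⟨ht1, ht2⟩, ⟨ht3, ht4⟩, -, -, -, -, -⟩ := hτ
    have hz : ‖ι x + τ • Y‖ < ε := by
      calc ‖ι x + τ • Y‖ ≤ ‖ι x‖ + ‖τ • Y‖ := norm_add_le _ _
        _ = ‖x‖ + |τ| * ‖Y‖ := by rw [hιn, norm_smul, Real.norm_eq_abs]
        _ < ε / (1 + ‖Y‖) + ε / (1 + ‖Y‖) * ‖Y‖ := by
          have : |τ| * ‖Y‖ ≤ ε / (1 + ‖Y‖) * ‖Y‖ := by gcongr
          linarith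
        _ = ε := by field_simp
    have hp := hpsc (ι x + τ • Y) hz X
    rw [hXn, hIX] at hp
    have hLv : LvE r (ι x + τ • Y) X = dd X (dd X r) (ι x + τ • Y) +
        dd X' (dd X' r) (ι x + τ • Y) := by
      unfold LvE
      rw [hIX, d2_eq hs, d2_eq hs]
      rfl
    rw [hLv] at hp
    have t1 := T1 (ι x) τ (by rw [hιn]; exact hx1) ht1
    have t2 := T2 (ι x) τ (by rw [hιn]; exact hx2) ht2
    have t3 := T3 (ι x) τ (by rw [hιn]; exact hx3) ht3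
    have t4 := T4 (ι x) τ (by rw [hιn]; exact hx4) ht4
    simp only [w4] at t4
    rw [v4] at t4
    rw [v2, w2] at t2 t3
    have e1 : dd Y r (ι x) = ρ x := rfl
    have e0 : r (ι x) = cur r x := rfl
    rw [e1, e0] at t1
    have b0 := B0 x hx5
    have b1 := B1 x hx6
    have b2 := B2 x hx7
    have b3 := B3 x hx8
    have b4 := B4 x hx9
    have b5 := B5 x hx10
    have b6 := B6 x hx11
    have e2 : fderiv ℝ r (ι x + τ • Y) X = dd X r (ι x + τ • Y) := rfl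
    have e3 : fderiv ℝ r (ι x + τ • Y) X' = dd X' r (ι x + τ • Y) := rfl
    rw [e2, e3] at hp
    set P := ‖x‖ ^ (2 * m - 2)
    set Q := ‖x‖ ^ (d - 1)
    have hP0 : 0 ≤ P := by positivity
    have hQ0 : 0 ≤ Q := by positivity
    have hτ0 : 0 ≤ |τ| := abs_nonneg _
    -- absolute values of the three lower order terms
    have tri : ∀ (g a w C A A' : ℝ), |g - a - τ * w| ≤ C * τ ^ 2 → |a| ≤ A * P → |w| ≤ A' * Q →
        |g| ≤ A * P + A' * (|τ| * Q) + C * τ ^ 2 := by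
      intro g a w C A A' h1 h2 h3
      have h4 : |τ * w| ≤ A' * (|τ| * Q) := by
        rw [abs_mul]
        calc |τ| * |w| ≤ |τ| * (A' * Q) := by gcongr
          _ = _ := by ring
      have h5 : g = (g - a - τ * w) + a + τ * w := by ring
      rw [h5]
      refine (abs_add_le _ _).trans ?_
      have := abs_add_le (g - a - τ * w) a
      linarith
    have q1 := tri _ _ _ _ _ _ t1 b0 b4
    have q2 := tri _ _ _ _ _ _ t2 b1 b5
    have q3 := tri _ _ _ _ _ _ t3 b2 b6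
    have q4 := (abs_le.1 t4).2
    have q5 := (abs_le.1 b3).2
    set U := |τ| * Q
    have hU0 : 0 ≤ U := by positivity
    have hτ2 : 0 ≤ τ ^ 2 := sq_nonneg τ
    have R1 : K * |r (ι x + τ • Y)| ≤ K * (A0 * P + A4 * U + C1 * τ ^ 2) :=
      mul_le_mul_of_nonneg_left q1 hK.le
    have R2 : K * |dd X r (ι x + τ • Y)| ≤ K * (A1 * P + A5 * U + C2 * τ ^ 2) :=
      mul_le_mul_of_nonneg_left q2 hK.le
    have R3 : K * |dd X' r (ι x + τ • Y)| ≤ K * (A2 * P + A6 * U + C3 * τ ^ 2) :=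
      mul_le_mul_of_nonneg_left q3 hK.le
    have main : -(τ * Lap ρ x) ≤ A3 * P + C4 * τ ^ 2 + K * (A0 * P + A4 * U + C1 * τ ^ 2) +
        K * (A1 * P + A5 * U + C2 * τ ^ 2) + K * (A2 * P + A6 * U + C3 * τ ^ 2) := by
      simp only [one_pow, mul_one] at hp
      have e7 : K * (|dd X r (ι x + τ • Y)| + |dd X' r (ι x + τ • Y)|) =
        K * |dd X r (ι x + τ • Y)| + K * |dd X' r (ι x + τ • Y)| := by ring
      rw [e7] at hp
      linarith
    refine main.trans ?_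
    have z1 : A3 * P + C4 * τ ^ 2 ≤ S * (P + τ ^ 2 + U) := by
      have : S * (P + τ ^ 2 + U) - (A3 * P + C4 * τ ^ 2) =
        (A0 + A1 + A2 + A4 + A5 + A6 + C1 + C2 + C3 + C4) * P +
        (A0 + A1 + A2 + A3 + A4 + A5 + A6 + C1 + C2 + C3) * τ ^ 2 + S * U := by
        rw [hS]; ring
      have : 0 ≤ (A0 + A1 + A2 + A4 + A5 + A6 + C1 + C2 + C3 + C4) * P +
        (A0 + A1 + A2 + A3 + A4 + A5 + A6 + C1 + C2 + C3) * τ ^ 2 + S * U := by positivity
      linarith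
    have z2 : (A0 * P + A4 * U + C1 * τ ^ 2) + (A1 * P + A5 * U + C2 * τ ^ 2) +
        (A2 * P + A6 * U + C3 * τ ^ 2) ≤ S * (P + τ ^ 2 + U) := by
      have : S * (P + τ ^ 2 + U) - ((A0 * P + A4 * U + C1 * τ ^ 2) +
        (A1 * P + A5 * U + C2 * τ ^ 2) + (A2 * P + A6 * U + C3 * τ ^ 2)) =
        (A3 + A4 + A5 + A6 + C1 + C2 + C3 + C4) * P +
        (A0 + A1 + A2 + A3 + A4 + A5 + A6 + C4) * τ ^ 2 +
        (A0 + A1 + A2 + A3 + C1 + C2 + C3 + C4) * U := by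
        rw [hS]; ring
      have : 0 ≤ (A3 + A4 + A5 + A6 + C1 + C2 + C3 + C4) * P +
        (A0 + A1 + A2 + A3 + A4 + A5 + A6 + C4) * τ ^ 2 +
        (A0 + A1 + A2 + A3 + C1 + C2 + C3 + C4) * U := by positivity
      linarith
    have z3 := mul_le_mul_of_nonneg_left z2 hK.le
    calc _ = (A3 * P + C4 * τ ^ 2) + K * ((A0 * P + A4 * U + C1 * τ ^ 2) +
          (A1 * P + A5 * U + C2 * τ ^ 2) + (A2 * P + A6 * U + C3 * τ ^ 2)) := by ring
      _ ≤ S * (P + τ ^ 2 + U) + K * (S * (P + τ ^ 2 + U)) := add_le_add z1 z3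
      _ = (1 + K) * S * (P + τ ^ 2 + U) := by ring
  -- bound for the Laplacian of ρ
  have hm2 : 2 ≤ m := hd2.trans hdm
  have hLap : ∀ᶠ x in 𝓝 (0 : ℂ), |Lap ρ x| ≤ (3 * C0) * ‖x‖ ^ (d - 1) := by
    have hδ' : 0 < min δ 1 := lt_min hδ one_pos
    filter_upwards [ball_mem_nhds (0 : ℂ) hδ'] with x hx
    rw [mem_ball_zero_iff, lt_min_iff] at hx
    have both : ∀ τ : ℝ, 0 < τ → τ < δ →
        τ * |Lap ρ x| ≤ C0 * (‖x‖ ^ (2 * m - 2) + τ ^ 2 + τ * ‖x‖ ^ (d - 1)) := by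
      intro τ h0 h1
      have p1 := hkey x τ hx.1 (by rwa [abs_of_pos h0])
      have p2 := hkey x (-τ) hx.1 (by rwa [abs_neg, abs_of_pos h0])
      rw [abs_of_pos h0] at p1
      rw [abs_neg, abs_of_pos h0, neg_sq] at p2
      rcases abs_cases (Lap ρ x) with ⟨h, -⟩ | ⟨h, -⟩
      · rw [h]; linarith
      · rw [h]; linarith
    rcases eq_or_ne x 0 with hx0 | hx0
    · have hz : |Lap ρ x| ≤ 0 := by
        refine le_of_forall_pos_le_add fun e he => ?_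
        have hτ : 0 < min (δ / 2) (e / C0) := lt_min (by linarith) (by positivity)
        have h1 := both _ hτ ((min_le_left _ _).trans_lt (by linarith))
        set τ := min (δ / 2) (e / C0)
        rw [hx0, norm_zero, zero_pow (by omega), zero_pow (by omega)] at h1
        rw [hx0]
        have h2 : τ * |Lap ρ 0| ≤ τ * (C0 * τ) := by
          refine h1.trans (le_of_eq ?_); ring
        have h3 := le_of_mul_le_mul_left h2 hτ
        have h4 : C0 * τ ≤ e := by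
          have : τ ≤ e / C0 := min_le_right _ _
          rwa [le_div_iff₀ hC0, mul_comm] at this
        linarith
      refine hz.trans ?_
      positivity
    · have hxp : 0 < ‖x‖ := norm_pos_iff.2 hx0
      have hτ : 0 < ‖x‖ ^ (m - 1) := by positivity
      have hτδ : ‖x‖ ^ (m - 1) < δ := by
        calc ‖x‖ ^ (m - 1) ≤ ‖x‖ ^ 1 := pow_le_pow_of_le_one hxp.le hx.2.le (by omega)
          _ = ‖x‖ := pow_one _
          _ < δ := hx.1
      have h1 := both _ hτ hτδ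
      have h2 : ‖x‖ ^ (m - 1) * |Lap ρ x| ≤ ‖x‖ ^ (m - 1) * ((3 * C0) * ‖x‖ ^ (d - 1)) := by
        refine h1.trans ?_
        have e1 : ‖x‖ ^ (2 * m - 2) = ‖x‖ ^ (m - 1) * ‖x‖ ^ (m - 1) := by
          rw [← pow_add]; congr 1; omega
        have e2 : ‖x‖ ^ (m - 1) ≤ ‖x‖ ^ (d - 1) :=
          pow_le_pow_of_le_one hxp.le hx.2.le (by omega)
        have e3 := mul_le_mul_of_nonneg_left e2 (mul_nonneg hC0.le hτ.le)
        rw [e1]
        calc C0 * (‖x‖ ^ (m - 1) * ‖x‖ ^ (m - 1) + (‖x‖ ^ (m - 1)) ^ 2 +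
              ‖x‖ ^ (m - 1) * ‖x‖ ^ (d - 1))
            = 2 * (C0 * ‖x‖ ^ (m - 1) * ‖x‖ ^ (m - 1)) +
              C0 * ‖x‖ ^ (m - 1) * ‖x‖ ^ (d - 1) := by ring
          _ ≤ 2 * (C0 * ‖x‖ ^ (m - 1) * ‖x‖ ^ (d - 1)) +
              C0 * ‖x‖ ^ (m - 1) * ‖x‖ ^ (d - 1) := by linarith
          _ = _ := by ring
      exact le_of_mul_le_mul_left h2 hτ
  -- conclusion
  have hpos : ∀ x, 0 ≤ Lap (Hm d c) x := by
    refine hH.1 ρ d c hd2 hρs hO ⟨3 * C0, ?_⟩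
    filter_upwards [hLap] with x hx
    exact (abs_le.1 hx).1
  have hneg : ∀ x, 0 ≤ Lap (Hm d (fun a => -c a)) x := by
    have hHn : ∀ x, Hm d (fun a => -c a) x = -Hm d c x := by
      intro x
      unfold Hm
      rw [← Complex.neg_re, ← Finset.sum_neg_distrib]
      congr 1
      exact Finset.sum_congr rfl fun a _ => by ring
    have hLn : ∀ x, Lap (fun x => -ρ x) x = -Lap ρ x := by
      intro x
      have h0 : ContDiff ℝ ((⊤ : ℕ∞) : WithTop ℕ∞) (fun _ : ℂ => (0 : ℝ)) := contDiff_const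
      have h1 := lap_sub h0 hρs x
      have h2 : Lap (fun _ : ℂ => (0 : ℝ)) x = 0 := by
        rw [lap_eq h0]
        simp
      rw [h2] at h1
      simpa using h1
    refine hH.1 (fun x => -ρ x) d _ hd2 hρs.neg ?_ ⟨3 * C0, ?_⟩
    · refine hO.neg_left.congr_left fun x => ?_
      rw [hHn]; ring
    · filter_upwards [hLap] with x hx
      rw [hLn]
      have := (abs_le.1 hx).2
      linarith
  have hzero : ∀ x, Lap (Hm d c) x = 0 := by
    intro x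
    have h1 := hpos x
    have h2 := hneg x
    have h3 : Lap (Hm d (fun a => -c a)) x = -Lap (Hm d c) x := by
      rw [lapH, lapH, ← Complex.neg_re, ← Finset.sum_neg_distrib]
      congr 1
      exact Finset.sum_congr rfl fun a _ => by ring
    rw [h3] at h2
    linarith
  obtain ⟨x, hx⟩ := hnz
  exact hx (hH.2.1 d c hzero x)

end W320
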