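import Pool.Agent.W320.CQ_HOM

/-! Project CQ: the degree two case. -/

set_option autoImplicit false

open Metric Set Filter Topology Asymptotics

namespace W320.CQH

open Pool.Agent.W722.Cq

section general

variable {E F : Type*} [NormedAddCommGroup E] [NormedSpace ℝ E] [NormedAddCommGroup F]
  [NormedSpace ℝ F]

lemma fd_diff {f : E → ℝ} (hf : ContDiff ℝ ((⊤ : ℕ∞) : WithTop ℕ∞) f) (x : E) :
    DifferentiableAt ℝ (fderiv ℝ f) x := by
  have : ContDiff ℝ 1 (fderiv ℝ f) := hf.fderiv_right (by norm_cast)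
  exact (this.differentiable (by norm_num)) x

/-- the second derivative in terms of first derivatives in fixed directions -/
lemma d2_eq {f : E → ℝ} (hf : ContDiff ℝ ((⊤ : ℕ∞) : WithTop ℕ∞) f) (x v w : E) :
    fderiv ℝ (fderiv ℝ f) x v w = fderiv ℝ (fun y => fderiv ℝ f y w) x v := by
  rw [fderiv_clm_apply (fd_diff hf x) (differentiableAt_const _)]
  simp

lemma d2_symm {f : E → ℝ} (hf : ContDiff ℝ ((⊤ : ℕ∞) : WithTop ℕ∞) f) (x v w : E) :
    fderiv ℝ (fderiv ℝ f) x v w = fderiv ℝ (fderiv ℝ f) x w v := by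
  have h1 : ContDiffAt ℝ 2 f x := (hf.of_le (by norm_cast)).contDiffAt
  exact (h1.isSymmSndFDerivAt (by simp)) v w

lemma d1_comp {f : F → ℝ} (hf : ContDiff ℝ ((⊤ : ℕ∞) : WithTop ℕ∞) f) (L : E →L[ℝ] F) (b : F)
    (x v : E) (w : F) :
    fderiv ℝ (fun y => fderiv ℝ f (b + L y) w) x v =
      fderiv ℝ (fderiv ℝ f) (b + L x) (L v) w := by
  have hL : ∀ y, HasFDerivAt (fun x => b + L x) L y := fun y => L.hasFDerivAt.const_add b
  rw [d2_eq hf]
  have hd : DifferentiableAt ℝ (fun z => fderiv ℝ f z w) (b + L x) :=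
    (fd_diff hf _).clm_apply (differentiableAt_const _)
  exact congrArg (fun T : E →L[ℝ] ℝ => T v) (hd.hasFDerivAt.comp x (hL x)).fderiv

/-- second derivative of a function composed with an affine map -/
lemma d2_comp {f : F → ℝ} (hf : ContDiff ℝ ((⊤ : ℕ∞) : WithTop ℕ∞) f) (L : E →L[ℝ] F) (b : F)
    (x v w : E) :
    fderiv ℝ (fderiv ℝ (fun x => f (b + L x))) x v w =
      fderiv ℝ (fderiv ℝ f) (b + L x) (L v) (L w) := by
  have hL : ∀ y, HasFDerivAt (fun x => b + L x) L y := fun y => L.hasFDerivAt.const_add b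
  have h1 : ∀ y, fderiv ℝ (fun x => f (b + L x)) y = (fderiv ℝ f (b + L y)).comp L := by
    intro y
    have hd : DifferentiableAt ℝ f (b + L y) := hf.differentiable (by norm_num) _
    exact (hd.hasFDerivAt.comp y (hL y)).fderiv
  have hfL : ContDiff ℝ ((⊤ : ℕ∞) : WithTop ℕ∞) (fun x => f (b + L x)) :=
    hf.comp (contDiff_const.add L.contDiff)
  rw [d2_eq hfL]
  have h2 : (fun y => fderiv ℝ (fun x => f (b + L x)) y w) = fun y => fderiv ℝ f (b + L y) (L w) := by
    funext y; rw [h1]; rfl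
  rw [h2, d1_comp hf]

end general

/-- rotation invariance of the trace of a bilinear form on the plane -/
lemma rot (B : ℂ →L[ℝ] ℂ →L[ℝ] ℝ) (x : ℂ) :
    B x x + B (Complex.I * x) (Complex.I * x) = ‖x‖ ^ 2 * (B 1 1 + B Complex.I Complex.I) := by
  have h1 : x = x.re • (1 : ℂ) + x.im • Complex.I := by
    apply Complex.ext <;> simp
  have h2 : Complex.I * x = (-x.im) • (1 : ℂ) + x.re • Complex.I := by
    apply Complex.ext <;> simp
  have h3 : ‖x‖ ^ 2 = x.re ^ 2 + x.im ^ 2 := by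
    rw [← Complex.normSq_eq_norm_sq, Complex.normSq_apply]; ring
  rw [h2, h3]
  conv_lhs => rw [h1]
  simp only [map_add, map_smul, ContinuousLinearMap.add_apply, ContinuousLinearMap.smul_apply,
    smul_eq_mul]
  simp
  ring

end W320.CQH

namespace W320

open Pool.Agent.W722.Cq W320.CQH

theorem t2 (hD : S_DER) : S_T2 := by
  intro k r c hr hO hLap hnz hRc X hX hX2
  obtain ⟨x, y, w⟩ := X
  simp only at hX2
  subst hX2
  have hs := hr.smooth
  set B := fderiv ℝ (fderiv ℝ r) (0 : EE k) with hB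
  -- inclusion of the curve
  set ι : ℂ →L[ℝ] EE k := ContinuousLinearMap.inl ℝ ℂ (V k × ℂ) with hι
  have hιx : ∀ x : ℂ, ι x = (x, 0, 0) := fun x => rfl
  have hcur : cur r = fun x => r (0 + ι x) := by
    funext x; rw [zero_add, hιx]; rfl
  have hcs : ContDiff ℝ ((⊤ : ℕ∞) : WithTop ℕ∞) (cur r) := by
    rw [hcur]; exact hs.comp (contDiff_const.add ι.contDiff)
  have hcB : ∀ v w : ℂ, fderiv ℝ (fderiv ℝ (cur r)) 0 v w = B (v, 0, 0) (w, 0, 0) := by
    intro v w
    rw [hcur, d2_comp hs ι 0 0 v w, map_zero, zero_add]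
    rfl
  -- Laplacian at the origin
  have hc1 : Lap (Hm 2 c) 0 = 4 * (c 1).re := by
    rw [lapH]
    have : Finset.Ioo 0 2 = {1} := rfl
    rw [this, Finset.sum_singleton]
    simp [mo]
  have hHm : ∀ x, Hm 2 c x = (c 1).re * ‖x‖ ^ 2 := by
    intro x
    unfold Hm
    have : Finset.Ioo 0 2 = {1} := rfl
    rw [this, Finset.sum_singleton, pow_one, show 2 - 1 = 1 from rfl, pow_one, mul_assoc,
      Complex.mul_conj, Complex.normSq_eq_norm_sq, Complex.re_mul_ofReal]
  have hpos : 0 < (c 1).re := by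
    have h1 := hLap 0
    rw [hc1] at h1
    obtain ⟨z, hz⟩ := hnz
    rw [hHm] at hz
    have h2 : (c 1).re ≠ 0 := fun h => hz (by rw [h, zero_mul])
    rcases lt_or_gt_of_ne h2 with h3 | h3
    · linarith
    · exact h3
  have hL0 : Lap (cur r) 0 = 4 * (c 1).re := by
    have h1 := (hD (fun x => cur r x - Hm 2 c x) (hcs.sub (Hm_contDiff 2 c))).2 1 hO
    have h2 : Lap (fun x => cur r x - Hm 2 c x) 0 = 0 := by
      obtain ⟨C, hC⟩ := h1.bound
      have := hC.self_of_nhds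
      simpa using this
    rw [lap_sub hcs (Hm_contDiff 2 c), hc1] at h2
    linarith
  -- cross terms
  have hcross : ∀ (x : ℂ) (y : V k), B (x, 0, 0) (0, y, 0) = 0 := by
    intro x y
    have h1 : HasFDerivAt (Rc r y 0) (0 : ℂ →L[ℝ] ℝ) 0 := by
      refine IsBigO.hasFDerivAt (n := 2) ?_ (by norm_num)
      simpa using hRc y 0
    have h2 : fderiv ℝ (Rc r y 0) 0 x = B (x, 0, 0) (0, y, 0) := by
      have e : Rc r y 0 = fun z => fderiv ℝ r (0 + ι z) (0, y, 0) := by
        funext z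
        unfold Rc
        rw [zero_add, hιx]
        simp
      rw [e]
      rw [d1_comp hs ι 0, map_zero, zero_add, hιx]
    rw [← h2, h1.fderiv]
    rfl
  have hyy : ∀ y : V k, B (0, y, 0) (0, y, 0) = 2 * ‖y‖ ^ 2 := by
    intro y
    have := hr.d2 y 0
    simpa using this
  have hexp : ∀ (x : ℂ) (y : V k), B (x, y, 0) (x, y, 0) = B (x, 0, 0) (x, 0, 0) + 2 * ‖y‖ ^ 2 := by
    intro x y
    have e : ((x, y, 0) : EE k) = (x, 0, 0) + (0, y, 0) := by simp
    have e2 : B (0, y, 0) (x, 0, 0) = 0 := by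
      rw [hB, d2_symm hs 0 (0, y, 0) (x, 0, 0), ← hB, hcross]
    rw [e]
    simp only [map_add, ContinuousLinearMap.add_apply]
    rw [hcross, hyy, e2]
    ring
  have hI : Complex.I • ((x, y, 0) : EE k) = (Complex.I * x, Complex.I • y, 0) := by simp
  have hfin : LvE r 0 (x, y, 0) = 4 * (c 1).re * ‖x‖ ^ 2 + 4 * ‖y‖ ^ 2 := by
    unfold LvE
    rw [hI, ← hB, hexp x y, hexp (Complex.I * x) (Complex.I • y), ← hcB, ← hcB]
    have h1 := rot (fderiv ℝ (fderiv ℝ (cur r)) 0) x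
    have h2 : fderiv ℝ (fderiv ℝ (cur r)) 0 1 1 +
      fderiv ℝ (fderiv ℝ (cur r)) 0 Complex.I Complex.I = 4 * (c 1).re := hL0
    rw [h2] at h1
    have h3 : ‖Complex.I • y‖ = ‖y‖ := by rw [norm_smul]; simp
    rw [h3]
    linarith
  rw [hfin]
  by_cases hx : x = 0
  · have hy : y ≠ 0 := by
      rintro rfl
      exact hX (by rw [hx]; rfl)
    have : 0 < ‖y‖ := norm_pos_iff.2 hy
    positivity
  · have : 0 < ‖x‖ := norm_pos_iff.2 hx
    positivity

end W320
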