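import Pool.Agent.W722.Cq.Stm

/-! Project CQ: smallness on a small ball spreads to every smaller concentric ball (Taylor). -/

set_option autoImplicit false

open Metric Set Filter Topology

namespace W320

open Pool.Agent.W722.Cq

private lemma coeff_bound {n : ℕ} {F : ℂ → V n} {ρ B : ℝ} (hρ : 0 < ρ)
    (hF : DifferentiableOn ℂ F (closedBall 0 ρ)) (hB : ∀ z ∈ sphere (0 : ℂ) ρ, ‖F z‖ ≤ B)
    (l : ℂ) (j : ℕ) :
    ‖((j.factorial : ℂ)⁻¹ • (l - 0) ^ j • iteratedDeriv j F 0)‖ ≤ B * (‖l‖ / ρ) ^ j := by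
  have hd : DiffContOnCl ℂ F (ball 0 ρ) := by
    apply DifferentiableOn.diffContOnCl
    rwa [closure_ball _ hρ.ne']
  have h1 := Complex.norm_iteratedDeriv_le_of_forall_mem_sphere_norm_le j hρ hd hB
  have hj : (0 : ℝ) < j.factorial := by exact_mod_cast j.factorial_pos
  rw [norm_smul, norm_smul, norm_inv, norm_pow, sub_zero, Complex.norm_natCast]
  calc (j.factorial : ℝ)⁻¹ * (‖l‖ ^ j * ‖iteratedDeriv j F 0‖)
      ≤ (j.factorial : ℝ)⁻¹ * (‖l‖ ^ j * (j.factorial * B / ρ ^ j)) := by gcongr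
    _ = B * (‖l‖ / ρ) ^ j := by
      rw [div_pow]; field_simp

theorem t : S_T := by
  intro n M R' R c η hc hcR hRR hη
  set R0 : ℝ := max R c with hR0
  have hR0c : c ≤ R0 := le_max_right _ _
  have hR0R : R ≤ R0 := le_max_left _ _
  have hR0' : R0 < R' := max_lt hRR hcR
  have hR0p : 0 < R0 := hc.trans_le hR0c
  set R1 : ℝ := (R0 + R') / 2 with hR1
  have hR1a : R0 < R1 := by rw [hR1]; linarith
  have hR1b : R1 < R' := by rw [hR1]; linarith
  have hR1p : 0 < R1 := hR0p.trans hR1a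
  set q : ℝ := R0 / R1 with hq
  have hq0 : 0 < q := by positivity
  have hq1 : q < 1 := by rw [hq, div_lt_one hR1p]; exact hR1a
  have hq1' : 0 < 1 - q := by linarith
  obtain ⟨J, hJ⟩ : ∃ J : ℕ, q ^ J < η / 2 * (1 - q) / (|M| + 1) :=
    exists_pow_lt_of_lt_one (by positivity) hq1
  set K : ℝ := R0 / (c / 2) with hK
  have hK0 : 0 < K := by positivity
  set S : ℝ := ∑ j ∈ Finset.range J, K ^ j with hS
  have hS0 : 0 ≤ S := Finset.sum_nonneg fun j _ => by positivity
  refine ⟨η / 2 / (S + 1), by positivity, ?_⟩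
  set μ : ℝ := η / 2 / (S + 1) with hμ
  have hμ0 : 0 < μ := by positivity
  intro f hf hM hμb z hz
  set e : V n := ((‖z‖⁻¹ : ℝ) : ℂ) • z with he
  have hen : ‖e‖ ≤ 1 := by
    rw [he, norm_smul, Complex.norm_real, Real.norm_eq_abs, abs_inv, abs_norm]
    exact inv_mul_le_one
  have hze : ((‖z‖ : ℝ) : ℂ) • e = z := by
    rw [he, smul_smul]
    rcases eq_or_ne z 0 with h0 | h0
    · simp [h0]
    · have : ‖z‖ ≠ 0 := norm_ne_zero_iff.2 h0
      rw [← Complex.ofReal_mul, mul_inv_cancel₀ this]; simp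
  set F : ℂ → V n := fun l => f (l • e) with hF
  have hball : ∀ l : ℂ, ‖l • e‖ ≤ ‖l‖ := fun l => by
    rw [norm_smul]; exact mul_le_of_le_one_right (norm_nonneg _) hen
  have hFd : DifferentiableOn ℂ F (ball 0 R') := by
    refine hf.comp (by fun_prop) ?_
    intro l hl
    rw [mem_ball_zero_iff] at hl ⊢
    exact (hball l).trans_lt hl
  set l : ℂ := ((‖z‖ : ℝ) : ℂ) with hl
  have hln : ‖l‖ = ‖z‖ := by rw [hl, Complex.norm_real, norm_norm]
  have hzR : ‖z‖ ≤ R0 := by
    rw [mem_ball_zero_iff] at hz; exact (hz.le).trans hR0R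
  have hls : l ∈ ball (0 : ℂ) R' := by
    rw [mem_ball_zero_iff, hln]; exact hzR.trans_lt hR0'
  have hsum := Complex.hasSum_taylorSeries_on_ball (c := 0) (r := R') hFd hls
  have hM1 : ∀ j : ℕ, ‖((j.factorial : ℂ)⁻¹ • (l - 0) ^ j • iteratedDeriv j F 0)‖ ≤
      |M| * q ^ j := by
    intro j
    refine (coeff_bound hR1p (hFd.mono (closedBall_subset_ball hR1b)) (B := M) ?_ l j).trans ?_
    · intro w hw
      rw [mem_sphere_zero_iff_norm] at hw
      refine hM _ ?_
      rw [mem_ball_zero_iff]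
      exact (hball w).trans_lt (hw.trans_lt hR1b)
    · rw [hln]
      have : ‖z‖ / R1 ≤ q := by rw [hq]; gcongr
      have h1 : (‖z‖ / R1) ^ j ≤ q ^ j := by gcongr
      exact mul_le_mul (le_abs_self M) h1 (by positivity) (abs_nonneg _)
  have hM2 : ∀ j : ℕ, ‖((j.factorial : ℂ)⁻¹ • (l - 0) ^ j • iteratedDeriv j F 0)‖ ≤
      μ * K ^ j := by
    intro j
    refine (coeff_bound (ρ := c / 2) (by positivity)
      (hFd.mono (closedBall_subset_ball (by linarith))) (B := μ) ?_ l j).trans ?_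
    · intro w hw
      rw [mem_sphere_zero_iff_norm] at hw
      refine hμb _ ?_
      rw [mem_ball_zero_iff]
      exact (hball w).trans_lt (by rw [hw]; linarith)
    · rw [hln]
      have : ‖z‖ / (c / 2) ≤ K := by rw [hK]; gcongr
      gcongr
  have hFl : F l = f z := congrArg f hze
  rw [← hFl, ← hsum.tsum_eq, ← hsum.summable.sum_add_tsum_nat_add J]
  have p1 : ‖∑ j ∈ Finset.range J,
      ((j.factorial : ℂ)⁻¹ • (l - 0) ^ j • iteratedDeriv j F 0)‖ ≤ η / 2 := by
    refine (norm_sum_le_of_le _ fun j _ => hM2 j).trans ?_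
    rw [← Finset.mul_sum, ← hS, hμ, div_mul_eq_mul_div, div_le_iff₀ (by positivity)]
    have : 0 < η / 2 := by positivity
    nlinarith
  have p2 : ‖∑' j : ℕ, ((((j + J).factorial : ℕ) : ℂ)⁻¹ • (l - 0) ^ (j + J) •
      iteratedDeriv (j + J) F 0)‖ ≤ η / 2 := by
    have hg : HasSum (fun j : ℕ => |M| * q ^ J * q ^ j) (|M| * q ^ J * (1 - q)⁻¹) :=
      (hasSum_geometric_of_lt_one hq0.le hq1).mul_left _
    refine (tsum_of_norm_bounded hg fun j => ?_).trans ?_
    · refine (hM1 (j + J)).trans (le_of_eq ?_)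
      rw [pow_add]; ring
    · have h1 : |M| * q ^ J ≤ η / 2 * (1 - q) := by
        have h2 : |M| * q ^ J ≤ (|M| + 1) * q ^ J :=
          mul_le_mul_of_nonneg_right (by linarith) (by positivity)
        have h3 : (|M| + 1) * q ^ J ≤ (|M| + 1) * (η / 2 * (1 - q) / (|M| + 1)) :=
          mul_le_mul_of_nonneg_left hJ.le (by positivity)
        have h4 : (|M| + 1) * (η / 2 * (1 - q) / (|M| + 1)) = η / 2 * (1 - q) := by
          field_simp
        linarith
      calc |M| * q ^ J * (1 - q)⁻¹ ≤ η / 2 * (1 - q) * (1 - q)⁻¹ := by gcongr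
        _ = η / 2 := by field_simp
  refine (norm_add_le _ _).trans ?_
  linarith

end W320
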