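import Pool.Agent.W320.HMBlockA

/-! Project HM (helper894), part BLOCK: eliminating a block. -/

set_option autoImplicit false

namespace Pool.Agent.W320.HMBlock

open Pool.Agent.W894.HT

variable {A : Type} [CommRing A]

/-- the final factor -/
def fn (z : ℕ) (G : (ℕ → ℕ) → A) (u : ℕ) (κ : ℕ → ℕ) : A :=
  ((κ z + low u z : ℕ) : A) * ftop G u κ

/-- sum over the orders of `W` -/
def T (φ : ℕ → ℕ → A) (fin : ℕ → (ℕ → ℕ) → A) (c : ℕ) (W : List ℕ) (κ : ℕ → ℕ) : A :=
  (W.permutations'.map fun l => Rr φ fin c l κ).sum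

/-- weight of a step inside of the block -/
def stp (φ : ℕ → ℕ → A) (c w : ℕ) : A := (if c < w then 1 else 0) + φ c w

theorem ch_cons (φ : ℕ → ℕ → A) (a b : ℕ) (l : List ℕ) :
    ch φ (a :: b :: l) = stp φ a b * ch φ (b :: l) := rfl

theorem ch_nil (φ : ℕ → ℕ → A) : ch φ [] = 1 := rfl

theorem ch_one (φ : ℕ → ℕ → A) (a : ℕ) : ch φ [a] = 1 := rfl

theorem AS_nil (φ : ℕ → ℕ → A) : AS φ [] = 1 := by
  unfold AS
  simp [ch_nil]

theorem T_nil (φ : ℕ → ℕ → A) (fin : ℕ → (ℕ → ℕ) → A) (c : ℕ) (κ : ℕ → ℕ) :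
    T φ fin c [] κ = fin c κ := by
  unfold T
  simp [Rr]

theorem T_head (h : S_HEAD) (φ : ℕ → ℕ → A) (fin : ℕ → (ℕ → ℕ) → A) (c : ℕ) (W : List ℕ)
    (κ : ℕ → ℕ) (hW : W.Nodup) (hne : W ≠ []) :
    T φ fin c W κ = (W.map fun w => (if c < w then
      T φ fin w (W.erase w) (fun t => κ t + itv c w t) else 0) +
        φ c w * T φ fin w (W.erase w) κ).sum :=
  h A φ fin W c κ hW hne

theorem T_congr (φ : ℕ → ℕ → A) (fin : ℕ → (ℕ → ℕ) → A) (z : ℕ)
    (hfin : ∀ u κ κ', (∀ t ≤ z, κ t = κ' t) → fin u κ = fin u κ') (c : ℕ) (W : List ℕ)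
    (κ κ' : ℕ → ℕ) (h : ∀ t ≤ z, κ t = κ' t) : T φ fin c W κ = T φ fin c W κ' := by
  have key : ∀ (l : List ℕ) (x : ℕ) (κ κ' : ℕ → ℕ), (∀ t ≤ z, κ t = κ' t) →
      Rr φ fin x l κ = Rr φ fin x l κ' := by
    intro l
    induction l with
    | nil => intro x κ κ' h; exact hfin x κ κ' h
    | cons v l ih =>
      intro x κ κ' h
      simp only [Rr]
      rw [ih v κ κ' h, ih v _ (fun z => κ' z + itv x v z) (fun t ht => by rw [h t ht])]
  unfold T
  exact sum_congr _ _ _ fun l _ => key l c κ κ' h

section main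

variable (φ : ℕ → ℕ → A) (G : (ℕ → ℕ) → A) (z v : ℕ)
  (hG : ∀ ρ ρ' : ℕ → ℕ, (∀ c, c < z → ρ c = ρ' c) → G ρ = G ρ')

include hG in
theorem fn_congr (u : ℕ) (κ κ' : ℕ → ℕ) (h : ∀ t ≤ z, κ t = κ' t) :
    fn z G u κ = fn z G u κ' := by
  unfold fn ftop
  rw [h z le_rfl, hG (fun c => κ c + low u c) (fun c => κ' c + low u c)
    (fun c hc => by rw [h c hc.le])]

include hG in
theorem TT (c : ℕ) (W : List ℕ) (κ κ' : ℕ → ℕ) (h : ∀ t ≤ z, κ t = κ' t) :
    T φ (fn z G) c W κ = T φ (fn z G) c W κ' :=
  T_congr φ _ z (fun u κ κ' => fn_congr G z hG u κ κ') c W κ κ' h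

include hG in
theorem T_step (c w : ℕ) (W : List ℕ) (κ : ℕ → ℕ) (hc : z < c) :
    (if c < w then T φ (fn z G) w W (fun t => κ t + itv c w t) else 0) +
      φ c w * T φ (fn z G) w W κ = stp φ c w * T φ (fn z G) w W κ := by
  rw [TT φ G z hG w W (fun t => κ t + itv c w t) κ (fun t ht => by
    unfold itv
    rw [if_neg (by omega), add_zero])]
  unfold stp
  split_ifs <;> ring

include hG in
/-- words inside of the block -/
theorem Rr_blk (l : List ℕ) : ∀ (r : ℕ) (κ : ℕ → ℕ), z < r → (∀ y ∈ l, z < y) →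
    Rr φ (fn z G) r l κ = ch φ (r :: l) * ((κ z : A) * G κ) := by
  induction l with
  | nil =>
    intro r κ hr _
    rw [ch_one, one_mul]
    show fn z G r κ = _
    unfold fn ftop low
    rw [if_neg (by omega), add_zero, hG (fun c => κ c + if r < c then 1 else 0) κ (fun c hc => by
      rw [if_neg (by omega), add_zero])]
  | cons w l ih =>
    intro r κ hr hl
    have hw : z < w := hl w List.mem_cons_self
    have hl' : ∀ y ∈ l, z < y := fun y hy => hl y (List.mem_cons_of_mem _ hy)
    have h1 : itv r w z = 0 := by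
      unfold itv
      rw [if_neg (by omega)]
    have h2 : G (fun t => κ t + itv r w t) = G κ := hG _ _ (fun c hc => by
      show κ c + itv r w c = κ c
      unfold itv
      rw [if_neg (by omega), add_zero])
    simp only [Rr]
    rw [ih w _ hw hl', ih w _ hw hl', ch_cons, h1, h2, add_zero]
    unfold stp
    split_ifs <;> ring

include hG in
/-- words of the block after a lower element -/
theorem Rr_low (l : List ℕ) (c : ℕ) (κ : ℕ → ℕ) (hc : c < z) (hl : ∀ y ∈ l, z < y)
    (h0 : ∀ y ∈ l, φ c y * (κ z : A) = 0) :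
    Rr φ (fn z G) c l κ = ch φ l * (((κ z : A) + 1) * ftop G c κ) := by
  cases l with
  | nil =>
    rw [ch_nil, one_mul]
    show fn z G c κ = _
    unfold fn low
    rw [if_pos hc]
    push_cast
    rfl
  | cons r l =>
    have hr : z < r := hl r List.mem_cons_self
    have hl' : ∀ y ∈ l, z < y := fun y hy => hl y (List.mem_cons_of_mem _ hy)
    have h1 : itv c r z = 1 := by
      unfold itv
      rw [if_pos ⟨hc, hr⟩]
    have h2 : G (fun t => κ t + itv c r t) = ftop G c κ := hG _ _ (fun t ht => by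
      show κ t + itv c r t = κ t + low c t
      unfold itv low
      split_ifs <;> omega)
    simp only [Rr]
    rw [Rr_blk φ G z hG l r _ hr hl', Rr_blk φ G z hG l r _ hr hl', h1, h2,
      if_pos (hc.trans hr)]
    have h3 := h0 r List.mem_cons_self
    push_cast
    linear_combination (ch φ (r :: l) * G κ) * h3

/-- the lower part -/
def Lam (c : ℕ) (V : List ℕ) (κ : ℕ → ℕ) : A := T φ (ftop G) c V κ

/-- leaving the block -/
def Q (V : List ℕ) (κ : ℕ → ℕ) : A := (V.map fun u => φ v u * Lam φ G u (V.erase u) κ).sum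

theorem erase_left {R V : List ℕ} {w : ℕ} (h : w ∈ R) :
    (R ++ V).erase w = R.erase w ++ V := List.erase_append_left _ h

theorem erase_right {R V : List ℕ} {w : ℕ} (h : w ∉ R) :
    (R ++ V).erase w = R ++ V.erase w := List.erase_append_right _ h

theorem disj {R V : List ℕ} (h : (R ++ V).Nodup) {w : ℕ} (hw : w ∈ V) : w ∉ R := by
  intro hR
  exact (List.nodup_append.1 h).2.2 w hR w hw rfl

/-- (0) the private vertices do not leave the block -/
theorem zero0 (hd : S_HEAD) : ∀ (n : ℕ) (R V : List ℕ) (c : ℕ) (κ : ℕ → ℕ), R.length = n →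
    (R ++ V).Nodup → V ≠ [] → z < c → (∀ y ∈ R, z < y) → (∀ u ∈ V, u < z) →
    (∀ u ∈ V, φ c u = 0) → (∀ y ∈ R, ∀ u ∈ V, φ y u = 0) →
    T φ (fn z G) c (R ++ V) κ = 0 := by
  intro n
  induction n with
  | zero =>
    intro R V c κ hn hnd hV hc hR hVz hcu hyu
    rw [List.length_eq_zero_iff] at hn
    subst hn
    rw [List.nil_append] at hnd ⊢
    rw [T_head hd φ _ c V κ hnd hV]
    apply sum_zero
    intro w hw
    have := hVz w hw
    rw [if_neg (by omega), hcu w hw, zero_mul, add_zero]
  | succ n ih =>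
    intro R V c κ hn hnd hV hc hR hVz hcu hyu
    rw [T_head hd φ _ c _ κ hnd (by
      intro h
      exact hV (List.append_eq_nil_iff.1 h).2)]
    apply sum_zero
    intro w hw
    rcases List.mem_append.1 hw with hw' | hw'
    · have h1 : ∀ κ', T φ (fn z G) w ((R ++ V).erase w) κ' = 0 := by
        intro κ'
        have hnd' := hnd.erase w
        rw [erase_left hw'] at hnd' ⊢
        refine ih (R.erase w) V w κ' ?_ hnd' hV (hR w hw')
          (fun y hy => hR y (List.mem_of_mem_erase hy)) hVz (hyu w hw')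
          (fun y hy => hyu y (List.mem_of_mem_erase hy))
        rw [List.length_erase_of_mem hw', hn]
        rfl
      rw [h1, h1, mul_zero, add_zero]
      split_ifs <;> rfl
    · have := hVz w hw'
      rw [if_neg (by omega), hcu w hw', zero_mul, add_zero]

include hG in
/-- (1) lower elements -/
theorem one1 (hd : S_HEAD) (R : List ℕ) (hR : ∀ y ∈ R, z < y) : ∀ (n : ℕ) (V : List ℕ) (c : ℕ)
    (κ : ℕ → ℕ), V.length = n → (R ++ V).Nodup → c < z → (∀ u ∈ V, u < z) →
    (∀ y ∈ R, φ c y = 0) → (∀ y ∈ R, ∀ u ∈ V, φ u y = 0 ∧ φ y u = 0) →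
    T φ (fn z G) c (R ++ V) κ = ((κ z : A) + 1) * AS φ R * Lam φ G c V κ := by
  intro n
  induction n with
  | zero =>
    intro V c κ hn hnd hc hVz hcy hyu
    rw [List.length_eq_zero_iff] at hn
    subst hn
    rw [List.append_nil, Lam, T_nil]
    unfold T AS
    rw [sum_congr _ _ (fun l => (((κ z : A) + 1) * ftop G c κ) * ch φ l)]
    · rw [sum_mul_left]
      ring
    · intro l hl
      have hp := List.mem_permutations'.1 hl
      rw [Rr_low φ G z hG l c κ hc (fun y hy => hR y (hp.subset hy))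
        (fun y hy => by rw [hcy y (hp.subset hy), zero_mul])]
      ring
  | succ n ih =>
    intro V c κ hn hnd hc hVz hcy hyu
    have hV : V ≠ [] := by
      intro h
      rw [h] at hn
      exact absurd hn (by simp)
    have hVn : V.Nodup := (List.nodup_append.1 hnd).2.1
    rw [T_head hd φ _ c _ κ hnd (by
      intro h
      exact hV (List.append_eq_nil_iff.1 h).2), List.map_append, List.sum_append, sum_zero,
      zero_add, Lam, T_head hd φ _ c V κ hVn hV, ← sum_mul_left]
    · apply sum_congr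
      intro w hw
      have hwR : w ∉ R := disj hnd hw
      have hwz := hVz w hw
      have hnd' := hnd.erase w
      rw [erase_right hwR] at hnd' ⊢
      have hlen : (V.erase w).length = n := by
        rw [List.length_erase_of_mem hw, hn]
        rfl
      have h1 : itv c w z = 0 := by
        unfold itv
        rw [if_neg (by omega)]
      have hz' : ∀ u ∈ V.erase w, u < z := fun u hu => hVz u (List.mem_of_mem_erase hu)
      have hy' : ∀ y ∈ R, ∀ u ∈ V.erase w, φ u y = 0 ∧ φ y u = 0 :=
        fun y hy u hu => hyu y hy u (List.mem_of_mem_erase hu)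
      have hw' : ∀ y ∈ R, φ w y = 0 := fun y hy => (hyu y hy w hw).1
      rw [ih (V.erase w) w _ hlen hnd' hwz hz' hw' hy',
        ih (V.erase w) w _ hlen hnd' hwz hz' hw' hy', h1, add_zero]
      unfold Lam
      split_ifs <;> ring
    · intro w hw
      have h1 : ∀ κ', T φ (fn z G) w ((R ++ V).erase w) κ' = 0 := by
        intro κ'
        have hnd' := hnd.erase w
        rw [erase_left hw] at hnd' ⊢
        exact zero0 φ G z hd _ (R.erase w) V w κ' rfl hnd' hV (hR w hw)
          (fun y hy => hR y (List.mem_of_mem_erase hy)) hVz (fun u hu => (hyu w hw u hu).2)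
          (fun y hy u hu => (hyu y (List.mem_of_mem_erase hy) u hu).2)
      rw [h1, hcy w hw, zero_mul, add_zero]
      split_ifs <;> rfl

variable (hzv : z < v)

include hG hzv in
/-- (2) leaving the block -/
theorem two2 (hd : S_HEAD) (R V : List ℕ) (κ : ℕ → ℕ) (hR : ∀ y ∈ R, z < y)
    (hnd : (R ++ V).Nodup) (hV : V ≠ []) (hVz : ∀ u ∈ V, u < z)
    (hyu : ∀ y ∈ R, ∀ u ∈ V, φ u y = 0 ∧ φ y u = 0) :
    T φ (fn z G) v (R ++ V) κ = ((κ z : A) + 1) * AS φ R * Q φ G v V κ := by
  rw [T_head hd φ _ v _ κ hnd (by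
      intro h
      exact hV (List.append_eq_nil_iff.1 h).2), List.map_append, List.sum_append, sum_zero,
      zero_add, Q, ← sum_mul_left]
  · apply sum_congr
    intro w hw
    have hwR : w ∉ R := disj hnd hw
    have hwz := hVz w hw
    have hnd' := hnd.erase w
    rw [erase_right hwR] at hnd' ⊢
    rw [if_neg (by omega), zero_add, one1 φ G z hG hd R hR _ (V.erase w) w κ rfl hnd' hwz
      (fun u hu => hVz u (List.mem_of_mem_erase hu)) (fun y hy => (hyu y hy w hw).1)
      (fun y hy u hu => hyu y hy u (List.mem_of_mem_erase hu))]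
    ring
  · intro w hw
    have h1 : ∀ κ', T φ (fn z G) w ((R ++ V).erase w) κ' = 0 := by
      intro κ'
      have hnd' := hnd.erase w
      rw [erase_left hw] at hnd' ⊢
      exact zero0 φ G z hd _ (R.erase w) V w κ' rfl hnd' hV (hR w hw)
        (fun y hy => hR y (List.mem_of_mem_erase hy)) hVz (fun u hu => (hyu w hw u hu).2)
        (fun y hy u hu => (hyu y (List.mem_of_mem_erase hy) u hu).2)
    rw [h1, h1, mul_zero, add_zero]
    split_ifs <;> rfl

/-- words from `c` to `v` and the rest -/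
def N' (c : ℕ) (R : List ℕ) : A :=
  (R.sublists'.map fun S => (S.permutations'.map fun l => ch φ (c :: (l ++ [v]))).sum *
    AS φ (R.filter fun y => decide (y ∉ S))).sum

theorem N'_rec (c : ℕ) (R : List ℕ) (hR : R.Nodup) :
    N' φ v c R = stp φ c v * AS φ R +
      (R.map fun w => stp φ c w * N' φ v w (R.erase w)).sum := by
  unfold N'
  rw [sum_sl R hR (fun l => ch φ (c :: (l ++ [v]))) (AS φ)]
  congr 1
  · rw [List.nil_append, ch_cons, ch_one, mul_one]
  · apply sum_congr
    intro w _
    rw [← sum_mul_left]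
    apply sum_congr
    intro S _
    rw [← mul_assoc, ← sum_mul_left]
    rfl

theorem NN_rec (Y : List ℕ) (hY : Y.Nodup) :
    NN φ v Y = AS φ Y + (Y.map fun w => N' φ v w (Y.erase w)).sum := by
  unfold NN N'
  rw [sum_sl Y hY (fun l => ch φ (l ++ [v])) (AS φ), List.nil_append, ch_one, one_mul]
  rfl

include hG hzv in
/-- (3) inside of the block -/
theorem three3 (hd : S_HEAD) (V : List ℕ) (hV : V ≠ []) (hVz : ∀ u ∈ V, u < z) :
    ∀ (n : ℕ) (R : List ℕ) (c : ℕ) (κ : ℕ → ℕ), R.length = n → (v :: (R ++ V)).Nodup →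
    z < c → (∀ y ∈ R, z < y) → (∀ u ∈ V, φ c u = 0) →
    (∀ y ∈ R, ∀ u ∈ V, φ u y = 0 ∧ φ y u = 0) →
    T φ (fn z G) c (v :: (R ++ V)) κ = ((κ z : A) + 1) * Q φ G v V κ * N' φ v c R := by
  intro n
  induction n with
  | zero =>
    intro R c κ hn hnd hc hR hcu hyu
    rw [List.length_eq_zero_iff] at hn
    subst hn
    rw [List.nil_append] at hnd ⊢
    rw [T_head hd φ _ c _ κ hnd (List.cons_ne_nil _ _), List.map_cons, List.sum_cons,
      List.erase_cons_head, T_step φ G z hG c v V κ hc, sum_zero, add_zero,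
      N'_rec φ v c [] List.nodup_nil]
    · have h2 := two2 φ G z v hG hzv hd [] V κ (fun y hy => absurd hy List.not_mem_nil)
        (by rw [List.nil_append]; exact (List.nodup_cons.1 hnd).2) hV hVz
        (fun y hy => absurd hy List.not_mem_nil)
      rw [List.nil_append] at h2
      rw [h2, List.map_nil, List.sum_nil, add_zero]
      ring
    · intro w hw
      have := hVz w hw
      rw [if_neg (by omega), hcu w hw, zero_mul, add_zero]
  | succ n ih =>
    intro R c κ hn hnd hc hR hcu hyu
    have hnd2 := (List.nodup_cons.1 hnd).2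
    have hvn := (List.nodup_cons.1 hnd).1
    have hRn : R.Nodup := (List.nodup_append.1 hnd2).1
    rw [T_head hd φ _ c _ κ hnd (List.cons_ne_nil _ _), List.map_cons, List.sum_cons,
      List.erase_cons_head, T_step φ G z hG c v _ κ hc, List.map_append, List.sum_append,
      sum_zero V, add_zero, N'_rec φ v c R hRn, two2 φ G z v hG hzv hd R V κ hR hnd2 hV hVz hyu,
      mul_add, ← sum_mul_left]
    · congr 1
      · ring
      · apply sum_congr
        intro w hw
        have hwv : v ≠ w := by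
          rintro rfl
          exact hvn (List.mem_append_left _ hw)
        have hnd' := hnd.erase w
        rw [List.erase_cons_tail (by simpa using hwv), erase_left hw] at hnd' ⊢
        rw [T_step φ G z hG c w _ κ hc, ih (R.erase w) w κ (by
          rw [List.length_erase_of_mem hw, hn]
          rfl) hnd' (hR w hw) (fun y hy => hR y (List.mem_of_mem_erase hy))
          (fun u hu => (hyu w hw u hu).2)
          (fun y hy => hyu y (List.mem_of_mem_erase hy))]
        ring
    · intro w hw
      have := hVz w hw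
      rw [if_neg (by omega), hcu w hw, zero_mul, add_zero]

/-- the dual lower part -/
def LamD (c : ℕ) (V : List ℕ) (κ : ℕ → ℕ) : DualNumber A :=
  T (A := DualNumber A) (dl φ v) (fun u κ => TrivSqZeroExt.inl (ftop G u κ)) c V κ

theorem fst_Rr (l : List ℕ) : ∀ (x : ℕ) (κ : ℕ → ℕ),
    (Rr (A := DualNumber A) (dl φ v) (fun u κ => TrivSqZeroExt.inl (ftop G u κ)) x l κ).fst =
      Rr φ (ftop G) x l κ := by
  induction l with
  | nil =>
    intro x κ
    rfl
  | cons u l ih =>
    intro x κ
    rw [Rr, Rr, TrivSqZeroExt.fst_add, TrivSqZeroExt.fst_mul, ih u κ]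
    have h1 : (dl φ v x u).fst = φ x u := by
      unfold dl
      rw [TrivSqZeroExt.fst_add, TrivSqZeroExt.fst_inl, TrivSqZeroExt.fst_inr, add_zero]
    rw [h1]
    congr 1
    split_ifs with h
    · exact ih u _
    · rfl

theorem fst_sum {α : Type} (L : List α) (f : α → DualNumber A) :
    (L.map f).sum.fst = (L.map fun a => (f a).fst).sum := by
  induction L with
  | nil => rfl
  | cons a L ih =>
    rw [List.map_cons, List.sum_cons, TrivSqZeroExt.fst_add, ih, List.map_cons, List.sum_cons]

theorem snd_sum {α : Type} (L : List α) (f : α → DualNumber A) :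
    (L.map f).sum.snd = (L.map fun a => (f a).snd).sum := by
  induction L with
  | nil => rfl
  | cons a L ih =>
    rw [List.map_cons, List.sum_cons, TrivSqZeroExt.snd_add, ih, List.map_cons, List.sum_cons]

theorem fst_LamD (c : ℕ) (V : List ℕ) (κ : ℕ → ℕ) :
    (LamD φ G v c V κ).fst = Lam φ G c V κ := by
  unfold LamD Lam T
  rw [fst_sum]
  exact sum_congr _ _ _ fun l _ => fst_Rr φ G v l c κ

theorem snd_LamD (hd : S_HEAD) (c : ℕ) (V : List ℕ) (κ : ℕ → ℕ) (hV : V.Nodup) (hne : V ≠ []) :
    (LamD φ G v c V κ).snd = (V.map fun w =>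
      ((if c < w then (LamD φ G v w (V.erase w) (fun t => κ t + itv c w t)).snd else 0) +
        φ c w * (LamD φ G v w (V.erase w) κ).snd) +
      φ c v * (φ v w * Lam φ G w (V.erase w) κ)).sum := by
  have h1 := T_head (A := DualNumber A) hd (dl φ v)
    (fun u κ => TrivSqZeroExt.inl (ftop G u κ)) c V κ hV hne
  unfold LamD
  rw [h1, snd_sum]
  apply sum_congr
  intro w _
  rw [TrivSqZeroExt.snd_add, TrivSqZeroExt.snd_mul]
  have h2 := fst_LamD φ G v w (V.erase w) κ
  unfold LamD at h2
  rw [h2]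
  unfold dl
  simp only [TrivSqZeroExt.fst_add, TrivSqZeroExt.snd_add, TrivSqZeroExt.fst_inl,
    TrivSqZeroExt.snd_inl, TrivSqZeroExt.fst_inr, TrivSqZeroExt.snd_inr, add_zero, zero_add,
    smul_eq_mul, MulOpposite.smul_eq_mul_unop, MulOpposite.unop_op]
  split_ifs
  · ring
  · rw [TrivSqZeroExt.snd_zero]
    ring

include hG hzv in
/-- (4) the main recursion -/
theorem four4 (hd : S_HEAD) (Y : List ℕ) (hY : ∀ y ∈ Y, z < y) (hNN : 2 * NN φ v Y = 0) :
    ∀ (n : ℕ) (V : List ℕ) (c : ℕ) (κ : ℕ → ℕ), V.length = n → (v :: (Y ++ V)).Nodup →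
    c < z → (∀ u ∈ V, u < z) → (∀ y ∈ Y, φ c y = 0) →
    (∀ y ∈ Y, ∀ u ∈ V, φ u y = 0 ∧ φ y u = 0) → κ z = 0 →
    T φ (fn z G) c (v :: (Y ++ V)) κ =
      AS φ (v :: Y) * Lam φ G c V κ + AS φ Y * (LamD φ G v c V κ).snd := by
  intro n
  induction n with
  | zero =>
    intro V c κ hn hnd hc hVz hcy hyu hκ
    rw [List.length_eq_zero_iff] at hn
    subst hn
    rw [List.append_nil, Lam, T_nil, LamD, T_nil, TrivSqZeroExt.snd_inl, mul_zero, add_zero]
    unfold T AS
    rw [sum_congr _ _ (fun l => ftop G c κ * ch φ l)]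
    · rw [sum_mul_left]
      ring
    · intro l hl
      have hp := List.mem_permutations'.1 hl
      rw [Rr_low φ G z hG l c κ hc (fun y hy => by
        rcases List.mem_cons.1 (hp.subset hy) with rfl | h
        · exact hzv
        · exact hY y h) (fun y hy => by rw [hκ, Nat.cast_zero, mul_zero]), hκ]
      push_cast
      ring
  | succ n ih =>
    intro V c κ hn hnd hc hVz hcy hyu hκ
    have hV : V ≠ [] := by
      intro h
      rw [h] at hn
      exact absurd hn (by simp)
    have hnd2 := (List.nodup_cons.1 hnd).2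
    have hvn := (List.nodup_cons.1 hnd).1
    have hYn : Y.Nodup := (List.nodup_append.1 hnd2).1
    have hVn : V.Nodup := (List.nodup_append.1 hnd2).2.1
    obtain ⟨κ₁, hκ₁⟩ : ∃ κ₁ : ℕ → ℕ, κ₁ = fun t => κ t + low c t := ⟨_, rfl⟩
    have hk1 : κ₁ z = 1 := by
      rw [hκ₁]
      show κ z + low c z = 1
      rw [hκ]
      unfold low
      rw [if_pos hc]
    have hk2 : ∀ w, z < w → ∀ t ≤ z, κ t + itv c w t = κ₁ t := by
      intro w hw t ht
      rw [hκ₁]
      show κ t + itv c w t = κ t + low c t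
      unfold itv low
      split_ifs <;> omega
    rw [T_head hd φ _ c _ κ hnd (List.cons_ne_nil _ _), List.map_cons, List.sum_cons,
      List.erase_cons_head, List.map_append, List.sum_append, if_pos (hc.trans hzv),
      TT φ G z hG v (Y ++ V) (fun t => κ t + itv c v t) κ₁ (hk2 v hzv),
      two2 φ G z v hG hzv hd Y V κ₁ hY hnd2 hV hVz hyu,
      two2 φ G z v hG hzv hd Y V κ hY hnd2 hV hVz hyu, hk1, hκ]
    -- the first letter in `Y`
    have e1 : (Y.map fun w => (if c < w then T φ (fn z G) w ((v :: (Y ++ V)).erase w)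
        (fun t => κ t + itv c w t) else 0) +
        φ c w * T φ (fn z G) w ((v :: (Y ++ V)).erase w) κ).sum =
        (((1 : ℕ) : A) + 1) * Q φ G v V κ₁ * (Y.map fun w => N' φ v w (Y.erase w)).sum := by
      rw [← sum_mul_left]
      apply sum_congr
      intro w hw
      have hwv : v ≠ w := by
        rintro rfl
        exact hvn (List.mem_append_left _ hw)
      have hnd' := hnd.erase w
      rw [List.erase_cons_tail (by simpa using hwv), erase_left hw] at hnd' ⊢
      rw [hcy w hw, zero_mul, add_zero, if_pos (hc.trans (hY w hw)),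
        TT φ G z hG w _ (fun t => κ t + itv c w t) κ₁ (hk2 w (hY w hw)),
        three3 φ G z v hG hzv hd V hV hVz _ (Y.erase w) w κ₁ rfl hnd' (hY w hw)
          (fun y hy => hY y (List.mem_of_mem_erase hy)) (fun u hu => (hyu w hw u hu).2)
          (fun y hy => hyu y (List.mem_of_mem_erase hy)), hk1]
    -- the first letter in `V`
    have e2 : (V.map fun w => (if c < w then T φ (fn z G) w ((v :: (Y ++ V)).erase w)
        (fun t => κ t + itv c w t) else 0) +
        φ c w * T φ (fn z G) w ((v :: (Y ++ V)).erase w) κ).sum =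
        AS φ (v :: Y) * Lam φ G c V κ + AS φ Y * (V.map fun w =>
      (if c < w then (LamD φ G v w (V.erase w) (fun t => κ t + itv c w t)).snd else 0) +
        φ c w * (LamD φ G v w (V.erase w) κ).snd).sum := by
      rw [Lam, T_head hd φ _ c V κ hVn hV, ← sum_mul_left, ← sum_mul_left, ← sum_add]
      apply sum_congr
      intro w hw
      have hwY : w ∉ Y := disj hnd2 hw
      have hwz := hVz w hw
      have hwv : v ≠ w := by
        rintro rfl
        exact hvn (List.mem_append_right _ hw)
      have hnd' := hnd.erase w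
      rw [List.erase_cons_tail (by simpa using hwv), erase_right hwY] at hnd' ⊢
      have hlen : (V.erase w).length = n := by
        rw [List.length_erase_of_mem hw, hn]
        rfl
      have h1 : κ z + itv c w z = 0 := by
        rw [hκ]
        unfold itv
        rw [if_neg (by omega)]
      have hz' : ∀ u ∈ V.erase w, u < z := fun u hu => hVz u (List.mem_of_mem_erase hu)
      have hy' : ∀ y ∈ Y, ∀ u ∈ V.erase w, φ u y = 0 ∧ φ y u = 0 :=
        fun y hy u hu => hyu y hy u (List.mem_of_mem_erase hu)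
      have hw' : ∀ y ∈ Y, φ w y = 0 := fun y hy => (hyu y hy w hw).1
      rw [ih (V.erase w) w _ hlen hnd' hwz hz' hw' hy' h1,
        ih (V.erase w) w _ hlen hnd' hwz hz' hw' hy' hκ]
      unfold Lam
      split_ifs <;> ring
    have e4 := sum_add V (fun w => (if c < w then
        (LamD φ G v w (V.erase w) (fun t => κ t + itv c w t)).snd else 0) +
        φ c w * (LamD φ G v w (V.erase w) κ).snd)
      (fun w => φ c v * (φ v w * Lam φ G w (V.erase w) κ))
    rw [sum_mul_left] at e4
    have e3 : (V.map fun w => φ v w * Lam φ G w (V.erase w) κ).sum = Q φ G v V κ := rfl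
    rw [e3] at e4
    rw [e1, e2, snd_LamD φ G v hd c V κ hVn hV, e4]
    rw [NN_rec φ v Y hYn] at hNN
    push_cast
    linear_combination (Q φ G v V κ₁) * hNN

end main

/-- BLOCK -/
theorem main (h : S_HEAD) : S_BLOCK := by
  intro A _ φ G z v x Y V hnd hxz hVz _ hzv hY hφ hG hNN
  exact four4 φ G z v hG hzv h Y hY hNN _ V x (fun _ => 0) rfl hnd hxz hVz
    (fun y hy => (hφ y hy x (Or.inr rfl)).1) (fun y hy u hu => hφ y hy u (Or.inl hu)) rfl

end Pool.Agent.W320.HMBlock
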