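import Pool.Agent.W894.HT.MDefs

/-! Project HM (helper894), part BLOCK: sums over words. -/

set_option autoImplicit false

namespace Pool.Agent.W320.HMBlock

open Pool.Agent.W894.HT

variable {A : Type} [CommRing A]

theorem sum_flat {α β : Type} (L : List α) (g : α → List β) (f : β → A) :
    ((L.flatMap g).map f).sum = (L.map fun l => ((g l).map f).sum).sum := by
  induction L with
  | nil => simp
  | cons a L ih =>
    rw [List.flatMap_cons, List.map_append, List.sum_append, ih, List.map_cons, List.sum_cons]

theorem sum_zero {α : Type} (L : List α) (f : α → A) (h : ∀ a ∈ L, f a = 0) :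
    (L.map f).sum = 0 := by
  induction L with
  | nil => simp
  | cons a L ih =>
    rw [List.map_cons, List.sum_cons, h a List.mem_cons_self,
      ih (fun b hb => h b (List.mem_cons_of_mem _ hb)), add_zero]

theorem sum_add {α : Type} (L : List α) (f g : α → A) :
    (L.map fun a => f a + g a).sum = (L.map f).sum + (L.map g).sum := by
  induction L with
  | nil => simp
  | cons a L ih =>
    simp only [List.map_cons, List.sum_cons, ih]
    ring

theorem sum_mul_left {α : Type} (L : List α) (c : A) (f : α → A) :
    (L.map fun a => c * f a).sum = c * (L.map f).sum := by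
  induction L with
  | nil => simp
  | cons a L ih =>
    simp only [List.map_cons, List.sum_cons, ih]
    ring

theorem sum_congr {α : Type} (L : List α) (f g : α → A) (h : ∀ a ∈ L, f a = g a) :
    (L.map f).sum = (L.map g).sum := by
  rw [List.map_congr_left h]

theorem nodup_perms (S : List ℕ) (hS : S.Nodup) : S.permutations'.Nodup := by
  rw [← (List.permutations_perm_permutations' S).nodup_iff]
  exact List.nodup_permutations S hS

theorem perms_head (S : List ℕ) (hS : S.Nodup) (hne : S ≠ []) :
    S.permutations'.Perm (S.flatMap fun w => (S.erase w).permutations'.map (List.cons w)) := by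
  have h1 : (S.flatMap fun w => (S.erase w).permutations'.map (List.cons w)).Nodup := by
    rw [List.nodup_flatMap]
    constructor
    · intro w hw
      exact (nodup_perms _ (hS.erase w)).map (List.cons_injective)
    · refine List.Pairwise.imp ?_ hS
      intro a b hab
      intro l hl hl'
      rw [List.mem_map] at hl hl'
      obtain ⟨l1, -, rfl⟩ := hl
      obtain ⟨l2, -, h2⟩ := hl'
      exact hab (List.cons.inj h2).1.symm
  rw [List.perm_ext_iff_of_nodup (nodup_perms S hS) h1]
  intro l
  rw [List.mem_permutations', List.mem_flatMap]
  constructor
  · intro h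
    cases l with
    | nil => exact absurd (List.Perm.eq_nil h.symm) hne
    | cons w l =>
      rw [List.cons_perm_iff_perm_erase] at h
      exact ⟨w, h.1, List.mem_map.2 ⟨l, List.mem_permutations'.2 h.2, rfl⟩⟩
  · rintro ⟨w, hw, hl⟩
    obtain ⟨l', hl', rfl⟩ := List.mem_map.1 hl
    rw [List.cons_perm_iff_perm_erase]
    exact ⟨hw, List.mem_permutations'.1 hl'⟩

/-- first letter -/
theorem sum_head (S : List ℕ) (hS : S.Nodup) (hne : S ≠ []) (F : List ℕ → A) :
    (S.permutations'.map F).sum =
      (S.map fun w => ((S.erase w).permutations'.map fun l => F (w :: l)).sum).sum := by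
  rw [((perms_head S hS hne).map F).sum_eq, sum_flat]
  apply sum_congr
  intro w _
  rw [List.map_map]
  rfl

/-- pairs (subset, element) -/
theorem sum_pairs (R : List ℕ) : R.Nodup → ∀ h : ℕ → List ℕ → A,
    (R.sublists'.map fun S => (S.map fun w => h w (S.erase w)).sum).sum =
      (R.map fun w => ((R.erase w).sublists'.map fun S => h w S).sum).sum := by
  induction R with
  | nil => intro _ h; simp
  | cons r R ih =>
    intro hR h
    rw [List.nodup_cons] at hR
    obtain ⟨hr, hR⟩ := hR
    rw [List.sublists'_cons, List.map_append, List.sum_append, ih hR h, List.map_map,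
      List.map_cons, List.sum_cons, List.erase_cons_head]
    have e1 : (R.sublists'.map ((fun S => (S.map fun w => h w (S.erase w)).sum) ∘
        List.cons r)).sum = (R.sublists'.map fun S => h r S).sum +
        (R.map fun w => ((R.erase w).sublists'.map fun S => h w (r :: S)).sum).sum := by
      rw [← ih hR (fun w S => h w (r :: S)), ← sum_add]
      apply sum_congr
      intro S hS
      have hrS : r ∉ S := fun h' => hr ((List.mem_sublists'.1 hS).subset h')
      show ((r :: S).map fun w => h w ((r :: S).erase w)).sum = _
      rw [List.map_cons, List.sum_cons, List.erase_cons_head]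
      congr 1
      apply sum_congr
      intro w hw
      have hwr : r ≠ w := fun h' => hrS (h' ▸ hw)
      rw [List.erase_cons_tail (by simpa using hwr)]
    have e2 : (R.map fun w => (((r :: R).erase w).sublists'.map fun S => h w S).sum).sum =
        (R.map fun w => ((R.erase w).sublists'.map fun S => h w S).sum).sum +
        (R.map fun w => ((R.erase w).sublists'.map fun S => h w (r :: S)).sum).sum := by
      rw [← sum_add]
      apply sum_congr
      intro w hw
      have hwr : r ≠ w := fun h' => hr (h' ▸ hw)
      rw [List.erase_cons_tail (by simpa using hwr), List.sublists'_cons, List.map_append,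
        List.sum_append, List.map_map]
      rfl
    rw [e1, e2]
    ring

theorem sum_nil_only (R : List ℕ) (X : A) :
    (R.sublists'.map fun S => if S = [] then X else 0).sum = X := by
  induction R with
  | nil => simp
  | cons r R ih =>
    rw [List.sublists'_cons, List.map_append, List.sum_append, ih, List.map_map, sum_zero,
      add_zero]
    intro S _
    show (if r :: S = [] then X else 0) = 0
    rw [if_neg (List.cons_ne_nil _ _)]

/-- splitting off the first letter of a word over a subset -/
theorem sum_sl (R : List ℕ) (hR : R.Nodup) (F H : List ℕ → A) :
    (R.sublists'.map fun S => (S.permutations'.map F).sum *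
      H (R.filter fun y => decide (y ∉ S))).sum =
    F [] * H R + (R.map fun w => ((R.erase w).sublists'.map fun S =>
      (S.permutations'.map fun l => F (w :: l)).sum *
        H ((R.erase w).filter fun y => decide (y ∉ S))).sum).sum := by
  rw [← sum_nil_only R (F [] * H R)]
  have e : (R.map fun w => ((R.erase w).sublists'.map fun S =>
      (S.permutations'.map fun l => F (w :: l)).sum *
        H ((R.erase w).filter fun y => decide (y ∉ S))).sum).sum =
      (R.map fun w => ((R.erase w).sublists'.map fun S =>
      (S.permutations'.map fun l => F (w :: l)).sum *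
        H (R.filter fun y => decide (y ∉ w :: S))).sum).sum := by
    apply sum_congr
    intro w _
    apply sum_congr
    intro S _
    congr 2
    rw [hR.erase_eq_filter, List.filter_filter]
    apply List.filter_congr
    intro y _
    by_cases h1 : y = w <;> by_cases h2 : y ∈ S <;> simp [h1, h2]
  rw [e, ← sum_pairs R hR (fun w S => (S.permutations'.map fun l => F (w :: l)).sum *
        H (R.filter fun y => decide (y ∉ w :: S))), ← sum_add]
  apply sum_congr
  intro S hS
  by_cases hne : S = []
  · subst hne
    rw [if_pos rfl]
    have h1 : (R.filter fun y => decide (y ∉ ([] : List ℕ))) = R := by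
      apply List.filter_eq_self.2
      intro y _
      simp
    rw [h1]
    simp
  · have hSn : S.Nodup := hR.sublist (List.mem_sublists'.1 hS)
    rw [if_neg hne, zero_add, sum_head S hSn hne F, ← List.sum_map_mul_right]
    apply sum_congr
    intro w hw
    congr 2
    apply List.filter_congr
    intro y _
    by_cases h1 : y = w
    · subst h1
      simp [hw]
    · have h2 : y ∈ S.erase w ↔ y ∈ S := List.mem_erase_of_ne h1
      simp [h1, h2]

end Pool.Agent.W320.HMBlock
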