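import Pool.Agent.W894.HT.MLib
import Pool.Agent.W352.HTCh3

/-!
# HN-CHK: `#P` is closed under binomial coefficients with constant `k`
-/

set_option autoImplicit false

namespace Pool.Agent.W320.HNChk

open Pool.Agent.NPC Pool.Agent.NPC.Cnt Pool.Agent.NPC.W352HTCh3
open Pool.Agent.W894.HT

theorem pc3_length (w : List Bool) (n k : ℕ) : (pc3 w n k).length = n := by
  unfold pc3
  rw [List.length_map, List.length_range]

/-- pieces of a concatenation -/
theorem pc3_flatten (n : ℕ) (L : List (List Bool)) : (∀ a ∈ L, a.length = n) →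
    ∀ (j : ℕ) (hj : j < L.length), pc3 L.flatten n j = L[j] := by
  induction L with
  | nil => intro _ j hj; exact absurd hj (by simp)
  | cons a L ih =>
    intro h j hj
    rw [List.flatten_cons]
    cases j with
    | zero => rw [pc3_0 a _ n (h a List.mem_cons_self)]; rfl
    | succ j =>
      rw [pc3_succ a _ n j (h a List.mem_cons_self),
        ih (fun b hb => h b (List.mem_cons_of_mem _ hb)) j (by simpa using hj)]
      rfl

theorem length_flatten (n : ℕ) (L : List (List Bool)) (h : ∀ a ∈ L, a.length = n) :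
    L.flatten.length = L.length * n := by
  induction L with
  | nil => simp
  | cons a L ih =>
    rw [List.flatten_cons, List.length_append, h a List.mem_cons_self,
      ih (fun b hb => h b (List.mem_cons_of_mem _ hb)), List.length_cons, Nat.succ_mul]
    omega

/-- a word is determined by its pieces -/
theorem eq_of_pieces (n k : ℕ) (w w' : List Bool) (hw : w.length = k * n)
    (hw' : w'.length = k * n) (h : ∀ j < k, pc3 w n j = pc3 w' n j) : w = w' := by
  apply List.ext_getElem (hw.trans hw'.symm)
  intro i h1 h2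
  have hi : i < k * n := hw ▸ h1
  have hn : 0 < n := by
    rcases Nat.eq_zero_or_pos n with h0 | h0
    · rw [h0, Nat.mul_zero] at hi
      exact absurd hi (Nat.not_lt_zero _)
    · exact h0
  have hj : i / n < k := (Nat.div_lt_iff_lt_mul hn).2 hi
  have hr : i % n < n := Nat.mod_lt _ hn
  have h3 := h (i / n) hj
  unfold pc3 at h3
  have h4 := List.map_inj_left.1 h3 (i % n) (List.mem_range.2 hr)
  have h5 : i / n * n + i % n = i := by
    rw [Nat.mul_comm]
    exact Nat.div_add_mod i n
  rw [h5, List.getD_eq_getElem?_getD, List.getD_eq_getElem?_getD, List.getElem?_eq_getElem h1,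
    List.getElem?_eq_getElem h2] at h4
  exact h4

/-- all pieces are accepted -/
def okA (ok : List Bool × List Bool → Bool) (N : List Bool → ℕ) :
    ℕ → List Bool × List Bool → Bool
  | 0, _ => true
  | j + 1, q => okA ok N j q && ok (q.1, pc3 q.2 (N q.1) j)

/-- the values of the pieces are increasing -/
def incA (N : List Bool → ℕ) : ℕ → List Bool × List Bool → Bool
  | 0, _ => true
  | j + 1, q => incA N j q && decide (valB (pc3 q.2 (N q.1) j) < valB (pc3 q.2 (N q.1) (j + 1)))

theorem okA_iff (ok : List Bool × List Bool → Bool) (N : List Bool → ℕ) (k : ℕ)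
    (q : List Bool × List Bool) :
    okA ok N k q = true ↔ ∀ j < k, ok (q.1, pc3 q.2 (N q.1) j) = true := by
  induction k with
  | zero => simp [okA]
  | succ k ih =>
    rw [okA, Bool.and_eq_true, ih]
    constructor
    · rintro ⟨h1, h2⟩ j hj
      rcases Nat.lt_succ_iff_lt_or_eq.1 hj with h | h
      · exact h1 j h
      · rw [h]; exact h2
    · intro h
      exact ⟨fun j hj => h j (by omega), h k (by omega)⟩

theorem incA_iff (N : List Bool → ℕ) (k : ℕ) (q : List Bool × List Bool) :
    incA N k q = true ↔ ∀ j < k, valB (pc3 q.2 (N q.1) j) < valB (pc3 q.2 (N q.1) (j + 1)) := by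
  induction k with
  | zero => simp [incA]
  | succ k ih =>
    rw [incA, Bool.and_eq_true, ih, decide_eq_true_eq]
    constructor
    · rintro ⟨h1, h2⟩ j hj
      rcases Nat.lt_succ_iff_lt_or_eq.1 hj with h | h
      · exact h1 j h
      · rw [h]; exact h2
    · intro h
      exact ⟨fun j hj => h j (by omega), h k (by omega)⟩

theorem okA_poly {ok : List Bool × List Bool → Bool} (hok : Poly ok) {N : List Bool → ℕ}
    (hN : UPoly (fun q : List Bool × List Bool => N q.1)) (k : ℕ) : Poly (okA ok N k) := by
  induction k with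
  | zero => exact Pool.Agent.NPC.Poly.const true
  | succ k ih =>
    exact Poly.and ih (hok.comp (Poly.pair (Poly.fst Poly.id) (pc3_poly (Poly.snd Poly.id) hN k)))

theorem incA_poly {N : List Bool → ℕ}
    (hN : UPoly (fun q : List Bool × List Bool => N q.1)) (k : ℕ) : Poly (incA N k) := by
  induction k with
  | zero => exact Pool.Agent.NPC.Poly.const true
  | succ k ih =>
    exact Poly.and ih (Poly.decide_lt (Poly.valBits (pc3_poly (Poly.snd Poly.id) hN k))
      (Poly.valBits (pc3_poly (Poly.snd Poly.id) hN (k + 1))))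

theorem strict (k : ℕ) (P : ℕ → ℕ) (h : ∀ j < k - 1, P j < P (j + 1)) :
    StrictMono (fun j : Fin k => P j) := by
  have key : ∀ d i : ℕ, i + (d + 1) < k → P i < P (i + (d + 1)) := by
    intro d
    induction d with
    | zero => intro i hi; exact h i (by omega)
    | succ d ih =>
      intro i hi
      exact (ih i (by omega)).trans (h (i + (d + 1)) (by omega))
  intro a b hab
  have hab' : (a : ℕ) < b := hab
  have := key (b - a - 1) a (by omega)
  rw [show (a : ℕ) + (b - a - 1 + 1) = b by omega] at this
  exact this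

theorem main : S_CHK := by
  classical
  intro k f hf
  obtain ⟨V, p, hV, hf⟩ := hf
  obtain ⟨ok, hok⟩ : ∃ ok : List Bool × List Bool → Bool,
      ok = fun q => decide (V (pairBits q.1 q.2) = [true]) := ⟨_, rfl⟩
  have hokP : Poly ok := by
    rw [hok]
    exact Poly.decide_eq (polyV hV (pairBits_poly (Poly.fst Poly.id) (Poly.snd Poly.id)))
      (Pool.Agent.NPC.Poly.const [true])
  have hokI : ∀ x w, ok (x, w) = true ↔ V (pairBits x w) = [true] := by
    intro x w
    rw [hok]
    simp
  obtain ⟨N, hN⟩ : ∃ N : List Bool → ℕ, N = fun x => p.eval x.length := ⟨_, rfl⟩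
  have hn : UPoly (fun q : List Bool × List Bool => N q.1) := by
    rw [hN]
    exact UPoly.eval (UPoly.length (Poly.fst Poly.id)) p
  obtain ⟨g, hg⟩ : ∃ g : List Bool × List Bool → Bool, g = fun q =>
      okA ok N k q && incA N (k - 1) q := ⟨_, rfl⟩
  have hgP : Poly g := by
    rw [hg]
    exact Poly.and (okA_poly hokP hn k) (incA_poly hn (k - 1))
  refine sharpP_of_poly g hgP (Polynomial.C k * p) fun x => ?_
  obtain ⟨n, hn'⟩ : ∃ n, n = N x := ⟨_, rfl⟩
  have hlen : (Polynomial.C k * p).eval x.length = k * n := by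
    rw [Polynomial.eval_mul, Polynomial.eval_C, hn', hN]
  have hfin : {w : List Bool | w.length = n ∧ V (pairBits x w) = [true]}.Finite :=
    (List.finite_length_eq Bool n).subset fun w hw => hw.1
  obtain ⟨S, hS⟩ : ∃ S : Finset (List Bool), S = hfin.toFinset := ⟨_, rfl⟩
  have hmem : ∀ w, w ∈ S ↔ w.length = n ∧ V (pairBits x w) = [true] := by
    intro w
    rw [hS, Set.Finite.mem_toFinset]
    rfl
  have hfS : f x = S.card := by
    rw [hf x, show p.eval x.length = n by rw [hn', hN]]
    exact Nat.subtype_card S hmem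
  have hinjS : Set.InjOn valB (S : Set (List Bool)) := fun a ha b hb h => valB_inj a b
    ((((hmem a).1 ha).1).trans (((hmem b).1 hb).1).symm) h
  obtain ⟨S', hS'⟩ : ∃ S' : Finset ℕ, S' = S.image valB := ⟨_, rfl⟩
  have hcard : S.card = S'.card := by
    rw [hS', Finset.card_image_of_injOn hinjS]
  have hfin2 : {w : List Bool | w.length = k * n ∧ g (x, w) = true}.Finite :=
    (List.finite_length_eq Bool (k * n)).subset fun w hw => hw.1
  obtain ⟨W, hW⟩ : ∃ W : Finset (List Bool), W = hfin2.toFinset := ⟨_, rfl⟩
  have hWm : ∀ w, w ∈ W ↔ w.length = k * n ∧ g (x, w) = true := by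
    intro w
    rw [hW, Set.Finite.mem_toFinset]
    rfl
  have hWc : Nat.card {w : List Bool // w.length = k * n ∧ g (x, w) = true} = W.card :=
    Nat.subtype_card W hWm
  rw [hlen, hWc, hfS, hcard, ← Finset.card_powersetCard]
  symm
  have hgI : ∀ w, g (x, w) = true ↔ (∀ j < k, V (pairBits x (pc3 w n j)) = [true]) ∧
      ∀ j < k - 1, valB (pc3 w n j) < valB (pc3 w n (j + 1)) := by
    intro w
    rw [hg]
    simp only [Bool.and_eq_true, okA_iff, incA_iff, hokI, ← hn']
  have hmono : ∀ w ∈ W, StrictMono (fun j : Fin k => valB (pc3 w n j)) := by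
    intro w hw
    exact strict k (fun j => valB (pc3 w n j)) ((hgI w).1 ((hWm w).1 hw).2).2
  have hpS : ∀ w ∈ W, ∀ j : Fin k, pc3 w n j ∈ S := by
    intro w hw j
    rw [hmem]
    exact ⟨pc3_length _ _ _, ((hgI w).1 ((hWm w).1 hw).2).1 j j.2⟩
  refine Finset.card_bij (fun w _ => Finset.univ.image (fun j : Fin k => valB (pc3 w n j)))
    ?_ ?_ ?_
  · intro w hw
    rw [Finset.mem_powersetCard]
    constructor
    · intro t ht
      obtain ⟨j, -, rfl⟩ := Finset.mem_image.1 ht
      rw [hS']
      exact Finset.mem_image_of_mem _ (hpS w hw j)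
    · rw [Finset.card_image_of_injective _ (hmono w hw).injective, Finset.card_univ,
        Fintype.card_fin]
  · intro w hw w' hw' h
    have hc : (Finset.univ.image (fun j : Fin k => valB (pc3 w n j))).card = k := by
      rw [Finset.card_image_of_injective _ (hmono w hw).injective, Finset.card_univ,
        Fintype.card_fin]
    have h1 := Finset.orderEmbOfFin_unique hc (f := fun j : Fin k => valB (pc3 w n j))
      (fun j => Finset.mem_image_of_mem _ (Finset.mem_univ j)) (hmono w hw)
    have h2 := Finset.orderEmbOfFin_unique hc (f := fun j : Fin k => valB (pc3 w' n j))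
      (fun j => by
        have : valB (pc3 w' n j) ∈ Finset.univ.image (fun j : Fin k => valB (pc3 w' n j)) :=
          Finset.mem_image_of_mem _ (Finset.mem_univ j)
        rw [← h] at this
        exact this) (hmono w' hw')
    have h3 := h1.trans h2.symm
    apply eq_of_pieces n k w w' ((hWm w).1 hw).1 ((hWm w').1 hw').1
    intro j hj
    apply valB_inj
    · rw [pc3_length, pc3_length]
    · exact congrFun h3 ⟨j, hj⟩
  · intro U hU
    rw [Finset.mem_powersetCard] at hU
    obtain ⟨hU, hUc⟩ := hU
    have h1 : ∀ j : Fin k, ∃ s ∈ S, valB s = U.orderEmbOfFin hUc j := by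
      intro j
      have h2 := hU (Finset.orderEmbOfFin_mem U hUc j)
      rw [hS'] at h2
      obtain ⟨s, hs, hs2⟩ := Finset.mem_image.1 h2
      exact ⟨s, hs, hs2⟩
    choose s hs hs2 using h1
    have hLl : (List.ofFn s).length = k := List.length_ofFn
    have hLn : ∀ a ∈ List.ofFn s, a.length = n := by
      intro a ha
      obtain ⟨j, rfl⟩ := (List.mem_ofFn' s a).1 ha
      exact ((hmem _).1 (hs j)).1
    have hpc : ∀ (j : ℕ) (hj : j < k), pc3 (List.ofFn s).flatten n j = s ⟨j, hj⟩ := by
      intro j hj
      rw [pc3_flatten n _ hLn j (by rw [hLl]; exact hj), List.getElem_ofFn]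
    have hwW : (List.ofFn s).flatten ∈ W := by
      rw [hWm, length_flatten n _ hLn, hLl, hgI]
      refine ⟨rfl, fun j hj => ?_, fun j hj => ?_⟩
      · rw [hpc j hj]
        exact ((hmem _).1 (hs _)).2
      · rw [hpc j (by omega), hpc (j + 1) (by omega), hs2, hs2]
        apply (U.orderEmbOfFin hUc).strictMono
        exact Fin.mk_lt_mk.2 (Nat.lt_succ_self j)
    refine ⟨(List.ofFn s).flatten, hwW, ?_⟩
    ext t
    rw [Finset.mem_image]
    constructor
    · rintro ⟨j, -, rfl⟩
      rw [hpc j j.2, hs2]
      exact Finset.orderEmbOfFin_mem U hUc _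
    · intro ht
      have h3 : t ∈ Set.range (U.orderEmbOfFin hUc) := by
        rw [Finset.range_orderEmbOfFin]
        exact ht
      obtain ⟨j, rfl⟩ := h3
      exact ⟨j, Finset.mem_univ _, by rw [hpc j j.2, hs2]⟩

end Pool.Agent.W320.HNChk
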